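import Mathlib

set_option autoImplicit false

namespace Pool.Agent.Lib.MP_c11385_co

open Finset

/-- number of permutations mapping `A` into `B` -/
theorem card_perm_mapsTo_step {m : ℕ} (A B : Finset (Fin m)) (i : Fin m) (hi : i ∉ A) :
    (univ.filter (fun σ : Equiv.Perm (Fin m) => ∀ j ∈ insert i A, σ j ∈ B)).card * (m - A.card)
      ≤ B.card * (univ.filter (fun σ : Equiv.Perm (Fin m) => ∀ j ∈ A, σ j ∈ B)).card := by
  classical
  set P := univ.filter (fun σ : Equiv.Perm (Fin m) => ∀ j ∈ A, σ j ∈ B) with hP
  have h1 : ∀ j ∈ Aᶜ, (P.filter (fun σ => σ j ∈ B)).card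
      = (univ.filter (fun σ : Equiv.Perm (Fin m) => ∀ j ∈ insert i A, σ j ∈ B)).card := by
    intro j hj
    have hj' : j ∉ A := by simpa using hj
    refine Finset.card_bij (fun σ _ => σ * Equiv.swap i j) ?_ ?_ ?_
    · intro σ hσ
      simp only [hP, Finset.mem_filter, Finset.mem_univ, true_and] at hσ ⊢
      intro x hx
      rcases Finset.mem_insert.mp hx with rfl | hxA
      · simpa using hσ.2
      · have hxi : x ≠ i := fun h => hi (h ▸ hxA)
        have hxj : x ≠ j := fun h => hj' (h ▸ hxA)
        simpa [Equiv.swap_apply_of_ne_of_ne hxi hxj] using hσ.1 x hxA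
    · intro σ _ τ _ h
      simpa using h
    · intro τ hτ
      simp only [Finset.mem_filter, Finset.mem_univ, true_and] at hτ
      refine ⟨τ * Equiv.swap i j, ?_, ?_⟩
      · simp only [hP, Finset.mem_filter, Finset.mem_univ, true_and]
        refine ⟨?_, ?_⟩
        · intro x hx
          have hxi : x ≠ i := fun h => hi (h ▸ hx)
          have hxj : x ≠ j := fun h => hj' (h ▸ hx)
          simpa [Equiv.swap_apply_of_ne_of_ne hxi hxj] using hτ x (Finset.mem_insert_of_mem hx)
        · simpa using hτ i (Finset.mem_insert_self i A)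
      · simp [mul_assoc]
  have h2 : ∑ j ∈ Aᶜ, (P.filter (fun σ => σ j ∈ B)).card
      = ∑ σ ∈ P, (Aᶜ.filter (fun j => σ j ∈ B)).card := by
    simp only [Finset.card_filter]
    rw [Finset.sum_comm]
  have h3 : ∀ σ ∈ P, (Aᶜ.filter (fun j => σ j ∈ B)).card ≤ B.card := by
    intro σ _
    refine Finset.card_le_card_of_injOn (fun j => σ j) ?_ ?_
    · intro j hj
      simp only [Finset.coe_filter, Set.mem_ofPred_eq] at hj
      exact hj.2
    · intro a _ b _ hab
      exact σ.injective hab
  calc (univ.filter (fun σ : Equiv.Perm (Fin m) => ∀ j ∈ insert i A, σ j ∈ B)).card * (m - A.card)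
      = ∑ j ∈ Aᶜ, (P.filter (fun σ => σ j ∈ B)).card := by
        rw [Finset.sum_congr rfl h1]
        simp [Finset.card_compl, mul_comm]
    _ = ∑ σ ∈ P, (Aᶜ.filter (fun j => σ j ∈ B)).card := h2
    _ ≤ ∑ σ ∈ P, B.card := Finset.sum_le_sum h3
    _ = B.card * P.card := by simp [mul_comm]

theorem card_perm_mapsTo {m : ℕ} (A B : Finset (Fin m)) :
    (univ.filter (fun σ : Equiv.Perm (Fin m) => ∀ j ∈ A, σ j ∈ B)).card
      * m.descFactorial A.card ≤ B.card ^ A.card * m.factorial := by
  classical
  induction A using Finset.induction_on with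
  | empty => simp [Fintype.card_perm]
  | insert i A hi ih =>
    rw [Finset.card_insert_of_notMem hi, Nat.descFactorial_succ]
    have h1 := card_perm_mapsTo_step A B i hi
    calc (univ.filter (fun σ : Equiv.Perm (Fin m) => ∀ j ∈ insert i A, σ j ∈ B)).card
          * ((m - A.card) * m.descFactorial A.card)
        = ((univ.filter (fun σ : Equiv.Perm (Fin m) => ∀ j ∈ insert i A, σ j ∈ B)).card
          * (m - A.card)) * m.descFactorial A.card := by ring
      _ ≤ (B.card * (univ.filter (fun σ : Equiv.Perm (Fin m) => ∀ j ∈ A, σ j ∈ B)).card)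
          * m.descFactorial A.card := Nat.mul_le_mul_right _ h1
      _ = B.card * ((univ.filter (fun σ : Equiv.Perm (Fin m) => ∀ j ∈ A, σ j ∈ B)).card
          * m.descFactorial A.card) := by ring
      _ ≤ B.card * (B.card ^ A.card * m.factorial) := Nat.mul_le_mul_left _ ih
      _ = B.card ^ (A.card + 1) * m.factorial := by ring

/-- points of the permutation in a cell -/
def cellIdx {m : ℕ} (l a : ℕ) : Finset (Fin m) := univ.filter (fun i : Fin m => i.val / l = a)

theorem card_cellIdx {m : ℕ} {l : ℕ} (hl : 0 < l) (a : ℕ) :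
    (cellIdx (m := m) l a).card ≤ l := by
  have : (cellIdx (m := m) l a).card ≤ (range l).card := by
    refine Finset.card_le_card_of_injOn (fun i => i.val % l) ?_ ?_
    · intro i _
      simpa using Nat.mod_lt _ hl
    · intro i hi j hj hij
      simp only [cellIdx, Finset.coe_filter, Finset.mem_univ, true_and, Set.mem_ofPred_eq] at hi hj
      simp only at hij
      have h1 := Nat.div_add_mod i.val l
      have h2 := Nat.div_add_mod j.val l
      rw [hi] at h1
      rw [hj] at h2
      exact Fin.ext (by omega)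
  simpa using this

open scoped Classical in
/-- The permutations having a cell with at least `t` points are few. -/
theorem card_crowded {m l t : ℕ} (hl : 0 < l) (hlm : l * l ≤ m) (ht : 2 * t ≤ m + 2) :
    (univ.filter (fun σ : Equiv.Perm (Fin m) => ∃ a ∈ range (m + 1), ∃ b ∈ range (m + 1),
      t ≤ ((cellIdx l a).filter (fun i => σ i ∈ cellIdx l b)).card)).card * t.factorial
      ≤ 2 ^ t * (m + 1) ^ 2 * m.factorial := by
  classical
  set Bad := univ.filter (fun σ : Equiv.Perm (Fin m) => ∃ a ∈ range (m + 1), ∃ b ∈ range (m + 1),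
      t ≤ ((cellIdx l a).filter (fun i => σ i ∈ cellIdx l b)).card) with hBad
  have hsub : Bad ⊆ (range (m + 1)).biUnion (fun a => (range (m + 1)).biUnion (fun b =>
      (powersetCard t (cellIdx l a)).biUnion (fun A =>
        univ.filter (fun σ : Equiv.Perm (Fin m) => ∀ j ∈ A, σ j ∈ cellIdx l b)))) := by
    intro σ hσ
    simp only [hBad, Finset.mem_filter, Finset.mem_univ, true_and] at hσ
    obtain ⟨a, ha, b, hb, hab⟩ := hσ
    obtain ⟨A, hA, hAc⟩ := Finset.exists_subset_card_eq hab
    simp only [Finset.mem_biUnion, Finset.mem_powersetCard, Finset.mem_filter, Finset.mem_univ,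
      true_and]
    refine ⟨a, ha, b, hb, A, ⟨fun x hx => ?_, hAc⟩, fun x hx => ?_⟩
    · exact (Finset.mem_filter.mp (hA hx)).1
    · exact (Finset.mem_filter.mp (hA hx)).2
  have hcard : Bad.card ≤ ∑ a ∈ range (m + 1), ∑ b ∈ range (m + 1),
      ∑ A ∈ powersetCard t (cellIdx (m := m) l a),
        (univ.filter (fun σ : Equiv.Perm (Fin m) => ∀ j ∈ A, σ j ∈ cellIdx l b)).card := by
    refine le_trans (Finset.card_le_card hsub) (le_trans Finset.card_biUnion_le ?_)
    refine Finset.sum_le_sum (fun a _ => ?_)
    refine le_trans Finset.card_biUnion_le ?_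
    refine Finset.sum_le_sum (fun b _ => ?_)
    exact Finset.card_biUnion_le
  have hone : ∀ a b, (∑ A ∈ powersetCard t (cellIdx (m := m) l a),
        (univ.filter (fun σ : Equiv.Perm (Fin m) => ∀ j ∈ A, σ j ∈ cellIdx l b)).card)
        * (m.descFactorial t * t.factorial) ≤ m ^ t * m.factorial := by
    intro a b
    rw [Finset.sum_mul]
    calc ∑ A ∈ powersetCard t (cellIdx (m := m) l a),
          (univ.filter (fun σ : Equiv.Perm (Fin m) => ∀ j ∈ A, σ j ∈ cellIdx l b)).card
            * (m.descFactorial t * t.factorial)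
        ≤ ∑ A ∈ powersetCard t (cellIdx (m := m) l a), l ^ t * m.factorial * t.factorial := by
          refine Finset.sum_le_sum (fun A hA => ?_)
          have hAc := (Finset.mem_powersetCard.mp hA).2
          have h1 := card_perm_mapsTo A (cellIdx (m := m) l b)
          rw [hAc] at h1
          rw [← mul_assoc]
          apply Nat.mul_le_mul_right
          refine le_trans h1 ?_
          apply Nat.mul_le_mul_right
          exact Nat.pow_le_pow_left (card_cellIdx hl b) t
      _ = (cellIdx (m := m) l a).card.choose t * (l ^ t * m.factorial * t.factorial) := by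
          simp [Finset.card_powersetCard]
      _ ≤ l.choose t * (l ^ t * m.factorial * t.factorial) := by
          apply Nat.mul_le_mul_right
          exact Nat.choose_le_choose t (card_cellIdx hl a)
      _ = (l.choose t * t.factorial) * l ^ t * m.factorial := by ring
      _ ≤ l ^ t * l ^ t * m.factorial := by
          apply Nat.mul_le_mul_right
          apply Nat.mul_le_mul_right
          have : l.descFactorial t = t.factorial * l.choose t := Nat.descFactorial_eq_factorial_mul_choose l t
          calc l.choose t * t.factorial = l.descFactorial t := by rw [this]; ring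
            _ ≤ l ^ t := Nat.descFactorial_le_pow l t
      _ = (l * l) ^ t * m.factorial := by rw [Nat.mul_pow]
      _ ≤ m ^ t * m.factorial := Nat.mul_le_mul_right _ (Nat.pow_le_pow_left hlm t)
  have htot : Bad.card * (m.descFactorial t * t.factorial) ≤ (m + 1) ^ 2 * (m ^ t * m.factorial) := by
    calc Bad.card * (m.descFactorial t * t.factorial)
        ≤ (∑ a ∈ range (m + 1), ∑ b ∈ range (m + 1),
            ∑ A ∈ powersetCard t (cellIdx (m := m) l a),
            (univ.filter (fun σ : Equiv.Perm (Fin m) => ∀ j ∈ A, σ j ∈ cellIdx l b)).card)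
            * (m.descFactorial t * t.factorial) := Nat.mul_le_mul_right _ hcard
      _ = ∑ a ∈ range (m + 1), ∑ b ∈ range (m + 1),
            (∑ A ∈ powersetCard t (cellIdx (m := m) l a),
            (univ.filter (fun σ : Equiv.Perm (Fin m) => ∀ j ∈ A, σ j ∈ cellIdx l b)).card)
            * (m.descFactorial t * t.factorial) := by
          rw [Finset.sum_mul]
          refine Finset.sum_congr rfl (fun a _ => ?_)
          rw [Finset.sum_mul]
      _ ≤ ∑ a ∈ range (m + 1), ∑ b ∈ range (m + 1), m ^ t * m.factorial :=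
          Finset.sum_le_sum (fun a _ => Finset.sum_le_sum (fun b _ => hone a b))
      _ = (m + 1) ^ 2 * (m ^ t * m.factorial) := by
          simp
          ring
  have hdesc : m ^ t ≤ 2 ^ t * m.descFactorial t := by
    calc m ^ t ≤ (2 * (m + 1 - t)) ^ t := Nat.pow_le_pow_left (by omega) t
      _ = 2 ^ t * (m + 1 - t) ^ t := by rw [Nat.mul_pow]
      _ ≤ 2 ^ t * m.descFactorial t := Nat.mul_le_mul_left _ (Nat.pow_sub_le_descFactorial m t)
  have hm0 : 0 < m := lt_of_lt_of_le (Nat.mul_pos hl hl) hlm
  have hmt : 0 < m ^ t := Nat.pow_pos hm0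
  refine Nat.le_of_mul_le_mul_left ?_ hmt
  calc m ^ t * (Bad.card * t.factorial)
      ≤ (2 ^ t * m.descFactorial t) * (Bad.card * t.factorial) := Nat.mul_le_mul_right _ hdesc
    _ = 2 ^ t * (Bad.card * (m.descFactorial t * t.factorial)) := by ring
    _ ≤ 2 ^ t * ((m + 1) ^ 2 * (m ^ t * m.factorial)) := Nat.mul_le_mul_left _ htot
    _ = m ^ t * (2 ^ t * (m + 1) ^ 2 * m.factorial) := by ring

end Pool.Agent.Lib.MP_c11385_co
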