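import Mathlib

set_option autoImplicit false

namespace Pool.Agent.Lib.MP_c11385_co

open Finset

/-- blue pairs, as a relation on natural numbers -/
def Blue {N : ℕ} (R : SimpleGraph (Fin N)) (x y : ℕ) : Prop :=
  ∃ hx : x < N, ∃ hy : y < N, x ≠ y ∧ ¬ R.Adj ⟨x, hx⟩ ⟨y, hy⟩

theorem Blue.symm {N : ℕ} {R : SimpleGraph (Fin N)} {x y : ℕ} (h : Blue R x y) : Blue R y x := by
  obtain ⟨hx, hy, hne, hR⟩ := h
  exact ⟨hy, hx, hne.symm, fun h => hR h.symm⟩

/-- three distinct vertices cannot be pairwise blue -/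
theorem red_of_no_triangle {N : ℕ} {R : SimpleGraph (Fin N)}
    (hno : ¬ ∃ a b c : Fin N, a < b ∧ b < c ∧ ¬ R.Adj a b ∧ ¬ R.Adj b c ∧ ¬ R.Adj a c)
    {x y z : Fin N} (hxy : x ≠ y) (hxz : x ≠ z) (hyz : y ≠ z)
    (h1 : ¬ R.Adj x y) (h2 : ¬ R.Adj x z) : R.Adj y z := by
  by_contra h3
  apply hno
  have h1' : ¬ R.Adj y x := fun h => h1 h.symm
  have h2' : ¬ R.Adj z x := fun h => h2 h.symm
  have h3' : ¬ R.Adj z y := fun h => h3 h.symm
  rcases lt_trichotomy x y with hA | hA | hA
  · rcases lt_trichotomy y z with hB | hB | hB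
    · exact ⟨x, y, z, hA, hB, h1, h3, h2⟩
    · exact absurd hB hyz
    · rcases lt_trichotomy x z with hC | hC | hC
      · exact ⟨x, z, y, hC, hB, h2, h3', h1⟩
      · exact absurd hC hxz
      · exact ⟨z, x, y, hC, hA, h2', h1, h3'⟩
  · exact absurd hA hxy
  · rcases lt_trichotomy y z with hB | hB | hB
    · rcases lt_trichotomy x z with hC | hC | hC
      · exact ⟨y, x, z, hA, hC, h1', h2, h3⟩
      · exact absurd hC hxz
      · exact ⟨y, z, x, hB, hC, h3, h2', h1'⟩
    · exact absurd hB hyz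
    · exact ⟨z, y, x, hB, hA, h3', h1', h2'⟩

/-- a vertex of large blue degree gives a red clique, hence a red copy of anything -/
theorem blue_degree_le {n N : ℕ} (M : SimpleGraph (Fin n)) {R : SimpleGraph (Fin N)}
    (hno : ¬ ∃ a b c : Fin N, a < b ∧ b < c ∧ ¬ R.Adj a b ∧ ¬ R.Adj b c ∧ ¬ R.Adj a c)
    (hM : ¬ ∃ f : Fin n → Fin N, StrictMono f ∧ ∀ i j : Fin n, M.Adj i j → R.Adj (f i) (f j))
    (x : ℕ) : Set.ncard {y | Blue R x y} ≤ n := by
  classical
  by_contra hcon
  push Not at hcon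
  apply hM
  by_cases hx : x < N
  swap
  · exfalso
    have : {y | Blue R x y} = ∅ := by
      ext y
      simp only [Set.mem_ofPred_eq, Set.mem_empty_iff_false, iff_false]
      rintro ⟨hx', -⟩
      exact hx hx'
    rw [this] at hcon
    simp at hcon
  set s : Finset (Fin N) := univ.filter (fun y => (⟨x, hx⟩ : Fin N) ≠ y ∧ ¬ R.Adj ⟨x, hx⟩ y) with hs
  have hcard : n ≤ s.card := by
    have h1 : Set.ncard {y | Blue R x y} = s.card := by
      rw [← Set.ncard_coe_finset]
      symm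
      refine Set.ncard_congr (fun y _ => y.val) ?_ ?_ ?_
      · intro y hy
        simp only [hs, Finset.coe_filter, Set.mem_ofPred_eq, Finset.mem_univ, true_and] at hy
        refine ⟨hx, y.isLt, ?_, hy.2⟩
        intro h
        exact hy.1 (Fin.ext h)
      · intro a b _ _ hab
        exact Fin.ext hab
      · rintro y ⟨_, hy, hne, hR⟩
        refine ⟨⟨y, hy⟩, ?_, rfl⟩
        simp only [hs, Finset.coe_filter, Set.mem_ofPred_eq, Finset.mem_univ, true_and]
        refine ⟨?_, hR⟩
        intro h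
        exact hne (congrArg Fin.val h)
    omega
  refine ⟨fun i => s.orderEmbOfCardLe hcard i, ?_, ?_⟩
  · intro i j hij
    exact (s.orderEmbOfCardLe hcard).strictMono hij
  · intro i j hij
    have hi := s.orderEmbOfCardLe_mem hcard i
    have hj := s.orderEmbOfCardLe_mem hcard j
    simp only [hs, Finset.mem_filter, Finset.mem_univ, true_and] at hi hj
    refine red_of_no_triangle hno hi.1 hj.1 ?_ hi.2 hj.2
    intro h
    exact hij.ne ((s.orderEmbOfCardLe hcard).injective h)

end Pool.Agent.Lib.MP_c11385_co
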