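import Mathlib

set_option autoImplicit false

namespace Pool.Agent.Lib.MP_c11385_co

open Finset

/-- `2 ^ x ≤ 1 + x` on `[0,1]`. -/
theorem two_rpow_le {x : ℝ} (h0 : 0 ≤ x) (h1 : x ≤ 1) : (2 : ℝ) ^ x ≤ 1 + x := by
  have h := rpow_one_add_le_one_add_mul_self (s := 1) (p := x) (by norm_num) h0 h1
  have e : (1 : ℝ) + 1 = 2 := by norm_num
  rw [e] at h
  linarith

/-- Averaging lemma: choose the offsets of the column blocks. -/
theorem exists_offsets {r₁ r₂ T : ℕ} (X : Fin r₁ → Fin r₂ → Fin T → ℕ) (K : ℝ) (hK : 0 < K)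
    (hT0 : 0 < T)
    (hX : ∀ q s t, (X q s t : ℝ) ≤ K)
    (hsum : ∀ q, (∑ s, ∑ t, (X q s t : ℝ)) ≤ 2 * K * T)
    (hT : 8 * (r₁ : ℝ) < (2 : ℝ) ^ ((T : ℝ) / K)) :
    ∃ o : Fin r₂ → Fin T, ∀ q, ∑ s, X q s (o s) < T := by
  classical
  have hTpos : (0 : ℝ) < T := by exact_mod_cast hT0
  have : Nonempty (Fin T) := ⟨⟨0, hT0⟩⟩
  -- weights
  set W : (Fin r₂ → Fin T) → ℝ := fun o => ∑ q, ∏ s, (1 + (X q s (o s) : ℝ) / K) with hW
  have htot : ∑ o : Fin r₂ → Fin T, W o ≤ ∑ _o : Fin r₂ → Fin T, 8 * (r₁ : ℝ) := by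
    have h1 : ∑ o : Fin r₂ → Fin T, W o
        = ∑ q : Fin r₁, ∏ s : Fin r₂, ∑ t : Fin T, (1 + (X q s t : ℝ) / K) := by
      simp only [hW]
      rw [Finset.sum_comm]
      refine Finset.sum_congr rfl (fun q _ => ?_)
      rw [Finset.prod_univ_sum]
      simp
    have h2 : ∀ q : Fin r₁, ∏ s : Fin r₂, ∑ t : Fin T, (1 + (X q s t : ℝ) / K)
        ≤ (T : ℝ) ^ r₂ * 8 := by
      intro q
      have h3 : ∀ s : Fin r₂, ∑ t : Fin T, (1 + (X q s t : ℝ) / K)
          ≤ T * Real.exp ((∑ t : Fin T, (X q s t : ℝ)) / (K * T)) := by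
        intro s
        have e1 : ∑ t : Fin T, (1 + (X q s t : ℝ) / K)
            = T * (1 + (∑ t : Fin T, (X q s t : ℝ)) / (K * T)) := by
          rw [Finset.sum_add_distrib, ← Finset.sum_div]
          simp
          field_simp
        rw [e1]
        apply mul_le_mul_of_nonneg_left _ hTpos.le
        have := Real.add_one_le_exp ((∑ t : Fin T, (X q s t : ℝ)) / (K * T))
        linarith
      calc ∏ s : Fin r₂, ∑ t : Fin T, (1 + (X q s t : ℝ) / K)
          ≤ ∏ s : Fin r₂, (T * Real.exp ((∑ t : Fin T, (X q s t : ℝ)) / (K * T))) := by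
            apply Finset.prod_le_prod
            · intro s _
              apply Finset.sum_nonneg
              intro t _
              positivity
            · intro s _
              exact h3 s
        _ = (T : ℝ) ^ r₂ * Real.exp (∑ s : Fin r₂, (∑ t : Fin T, (X q s t : ℝ)) / (K * T)) := by
            rw [Finset.prod_mul_distrib, Real.exp_sum]
            simp
        _ ≤ (T : ℝ) ^ r₂ * 8 := by
            apply mul_le_mul_of_nonneg_left _ (by positivity)
            rw [← Finset.sum_div]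
            have h5 : (∑ s : Fin r₂, ∑ t : Fin T, (X q s t : ℝ)) / (K * T) ≤ 2 := by
              rw [div_le_iff₀ (by positivity)]
              have := hsum q
              nlinarith
            have h6 : Real.exp 2 ≤ 8 := by
              have := Real.exp_one_lt_d9
              have h7 : Real.exp 2 = Real.exp 1 * Real.exp 1 := by
                rw [← Real.exp_add]; norm_num
              rw [h7]
              have h8 : (0:ℝ) < Real.exp 1 := Real.exp_pos 1
              nlinarith
            exact le_trans (Real.exp_le_exp.mpr h5) h6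
    rw [h1]
    calc ∑ q : Fin r₁, ∏ s : Fin r₂, ∑ t : Fin T, (1 + (X q s t : ℝ) / K)
        ≤ ∑ _q : Fin r₁, (T : ℝ) ^ r₂ * 8 := Finset.sum_le_sum (fun q _ => h2 q)
      _ = ∑ _o : Fin r₂ → Fin T, 8 * (r₁ : ℝ) := by
        simp
        ring
  obtain ⟨o, -, ho⟩ := Finset.exists_le_of_sum_le (Finset.univ_nonempty) htot
  refine ⟨o, fun q => ?_⟩
  by_contra hcon
  push Not at hcon
  have h1 : ∏ s, (1 + (X q s (o s) : ℝ) / K) ≤ W o := by
    simp only [hW]
    refine Finset.single_le_sum (f := fun q => ∏ s, (1 + (X q s (o s) : ℝ) / K)) ?_ (Finset.mem_univ q)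
    intro q' _
    apply Finset.prod_nonneg
    intro s _
    positivity
  have h2 : (2 : ℝ) ^ ((T : ℝ) / K) ≤ ∏ s, (1 + (X q s (o s) : ℝ) / K) := by
    calc (2 : ℝ) ^ ((T : ℝ) / K) ≤ (2 : ℝ) ^ (∑ s, (X q s (o s) : ℝ) / K) := by
          apply Real.rpow_le_rpow_of_exponent_le (by norm_num)
          rw [← Finset.sum_div]
          apply div_le_div_of_nonneg_right _ hK.le
          exact_mod_cast hcon
      _ = ∏ s, (2 : ℝ) ^ ((X q s (o s) : ℝ) / K) := by
          rw [Real.rpow_sum_of_pos (by norm_num)]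
      _ ≤ ∏ s, (1 + (X q s (o s) : ℝ) / K) := by
          apply Finset.prod_le_prod
          · intro s _
            positivity
          · intro s _
            apply two_rpow_le (by positivity)
            rw [div_le_one hK]
            exact hX q s (o s)
  linarith

end Pool.Agent.Lib.MP_c11385_co
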