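import Mathlib
import Pool.Agent.Lib.MP_c11385_co.Core

set_option autoImplicit false

namespace Pool.Agent.Lib.MP_c11385_co

open Finset

/-- Placement lemma: row blocks and column blocks can be shifted inside their regions so that
no point of the pattern is blue. -/
theorem placement {ι : Type} [Fintype ι] (r₁ r₂ T l D μ N base : ℕ)
    (q : ι → Fin r₁) (s : ι → Fin r₂) (u v : ι → ℕ)
    (hu : ∀ i, u i < l) (hv : ∀ i, v i < l)
    (β : ℕ → ℕ → Prop) (hβ : ∀ x y, β x y → x < N ∧ y < N)
    (hrow : ∀ x, Set.ncard {y | β x y} ≤ D)
    (hcol : ∀ y, Set.ncard {x | β x y} ≤ D)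
    (hμ : ∀ a b, Set.ncard {i | q i = a ∧ s i = b} ≤ μ)
    (hμ0 : 0 < μ) (hD0 : 0 < D) (hlT : l ≤ T) (hT0 : 0 < T)
    (hT : 8 * (r₁ : ℝ) < (2 : ℝ) ^ ((T : ℝ) / ((μ : ℝ) * D))) :
    ∃ (o : Fin r₁ → ℕ) (o' : Fin r₂ → ℕ), (∀ a, o a < T) ∧ (∀ b, o' b < T) ∧
      ∀ i, ¬ β ((q i).val * (T + l) + o (q i) + u i)
        (base + (s i).val * (T + l) + o' (s i) + v i) := by
  classical
  have hrowfin : ∀ x, Set.Finite {y | β x y} := fun x =>
    (Set.finite_lt_nat N).subset (fun y hy => (hβ x y hy).2)
  have hcolfin : ∀ y, Set.Finite {x | β x y} := fun y =>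
    (Set.finite_lt_nat N).subset (fun x hx => (hβ x y hx).1)
  set S := T + l with hS
  -- number of bad offsets for a point
  set Z : Fin r₁ → Fin r₂ → Fin T → ι → ℕ := fun a b t i =>
    (univ.filter (fun o : Fin T =>
      β (a.val * S + o.val + u i) (base + b.val * S + t.val + v i))).card with hZ
  have hZD : ∀ a b t i, Z a b t i ≤ D := by
    intro a b t i
    refine le_trans ?_ (hcol (base + b.val * S + t.val + v i))
    simp only [hZ]
    rw [← Set.ncard_coe_finset]
    refine Set.ncard_le_ncard_of_injOn (fun o : Fin T => a.val * S + o.val + u i) ?_ ?_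
      (hcolfin _)
    · intro o ho
      simpa using ho
    · intro o _ o' _ hoo
      simp only at hoo
      exact Fin.ext (by omega)
  set X : Fin r₁ → Fin r₂ → Fin T → ℕ := fun a b t =>
    ∑ i ∈ univ.filter (fun i => q i = a ∧ s i = b), Z a b t i with hX
  have hcard : ∀ a b, (univ.filter (fun i => q i = a ∧ s i = b)).card ≤ μ := by
    intro a b
    have := hμ a b
    rw [Set.ncard_eq_toFinset_card'] at this
    convert! this using 2
    ext i
    simp
  have hXK : ∀ a b t, (X a b t : ℝ) ≤ (μ : ℝ) * D := by
    intro a b t
    have : X a b t ≤ μ * D := by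
      calc X a b t ≤ ∑ i ∈ univ.filter (fun i => q i = a ∧ s i = b), D :=
            Finset.sum_le_sum (fun i _ => hZD a b t i)
        _ = (univ.filter (fun i => q i = a ∧ s i = b)).card * D := by simp
        _ ≤ μ * D := Nat.mul_le_mul_right _ (hcard a b)
    exact_mod_cast this
  -- blue edges between regions
  set E : Fin r₁ → Fin r₂ → ℕ := fun a b =>
    ((range S ×ˢ range S).filter (fun p : ℕ × ℕ =>
      β (a.val * S + p.1) (base + b.val * S + p.2))).card with hE
  have hZE : ∀ a b i, ∑ t, Z a b t i ≤ E a b := by
    intro a b i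
    have h1 : ∑ t, Z a b t i = ((univ : Finset (Fin T × Fin T)).filter
        (fun p => β (a.val * S + p.2.val + u i) (base + b.val * S + p.1.val + v i))).card := by
      simp only [hZ]
      rw [Finset.card_filter, ← Finset.univ_product_univ, Finset.sum_product]
      refine Finset.sum_congr rfl (fun t _ => ?_)
      rw [Finset.card_filter]
    rw [h1]
    refine Finset.card_le_card_of_injOn
      (fun p : Fin T × Fin T => (p.2.val + u i, p.1.val + v i)) ?_ ?_
    · intro p hp
      have hp' : β (a.val * S + p.2.val + u i) (base + b.val * S + p.1.val + v i) := by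
        simpa using hp
      have h2 := hu i
      have h3 := hv i
      have h4 := p.1.isLt
      have h5 := p.2.isLt
      simp only [Finset.coe_filter, Set.mem_ofPred_eq, Finset.mem_product, Finset.mem_range]
      refine ⟨⟨by omega, by omega⟩, ?_⟩
      rw [← Nat.add_assoc, ← Nat.add_assoc]
      exact hp'
    · intro p _ p' _ hpp
      simp only [Prod.mk.injEq] at hpp
      ext
      · omega
      · omega
  have hErow : ∀ a, ∑ b, E a b ≤ S * D := by
    intro a
    have h1 : ∀ b, E a b = ∑ x ∈ range S, ((range S).filter (fun y =>
        β (a.val * S + x) (base + b.val * S + y))).card := by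
      intro b
      simp only [hE]
      rw [Finset.card_filter, Finset.sum_product]
      refine Finset.sum_congr rfl (fun t _ => ?_)
      rw [Finset.card_filter]
    simp only [h1]
    rw [Finset.sum_comm]
    calc ∑ x ∈ range S, ∑ b : Fin r₂, ((range S).filter (fun y =>
            β (a.val * S + x) (base + b.val * S + y))).card
        ≤ ∑ x ∈ range S, D := by
          refine Finset.sum_le_sum (fun x _ => ?_)
          refine le_trans ?_ (hrow (a.val * S + x))
          have h2 : ∑ b : Fin r₂, ((range S).filter (fun y =>
            β (a.val * S + x) (base + b.val * S + y))).card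
            = (((univ : Finset (Fin r₂)) ×ˢ (range S)).filter (fun p : Fin r₂ × ℕ =>
              β (a.val * S + x) (base + p.1.val * S + p.2))).card := by
            rw [Finset.card_filter, Finset.sum_product]
            refine Finset.sum_congr rfl (fun t _ => ?_)
            rw [Finset.card_filter]
          rw [h2, ← Set.ncard_coe_finset]
          refine Set.ncard_le_ncard_of_injOn
            (fun p : Fin r₂ × ℕ => base + p.1.val * S + p.2) ?_ ?_ (hrowfin _)
          · intro p hp
            simp only [Finset.coe_filter, Set.mem_ofPred_eq, Finset.mem_product] at hp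
            exact hp.2
          · intro p hp p' hp' hpp
            simp only [Finset.coe_filter, Set.mem_ofPred_eq, Finset.mem_product,
              Finset.mem_range] at hp hp'
            simp only at hpp
            have hp2 := hp.1.2
            have hp2' := hp'.1.2
            have h5 : p.1.val * S + p.2 = p'.1.val * S + p'.2 := by omega
            have h6 : p.1.val = p'.1.val := by
              have e1 : (p.1.val * S + p.2) / S = p.1.val := by
                rw [mul_comm, Nat.mul_add_div (by omega), Nat.div_eq_of_lt hp2]; simp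
              have e2 : (p'.1.val * S + p'.2) / S = p'.1.val := by
                rw [mul_comm, Nat.mul_add_div (by omega), Nat.div_eq_of_lt hp2']; simp
              rw [← e1, ← e2, h5]
            ext
            · exact h6
            · rw [h6] at h5
              omega
      _ = S * D := by simp
  have hXsum : ∀ a, (∑ b, ∑ t, (X a b t : ℝ)) ≤ 2 * ((μ : ℝ) * D) * T := by
    intro a
    have h1 : ∑ b, ∑ t, X a b t ≤ μ * (S * D) := by
      calc ∑ b, ∑ t, X a b t ≤ ∑ b, μ * E a b := by
            refine Finset.sum_le_sum (fun b _ => ?_)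
            simp only [hX]
            rw [Finset.sum_comm]
            calc ∑ i ∈ univ.filter (fun i => q i = a ∧ s i = b), ∑ t, Z a b t i
                ≤ ∑ i ∈ univ.filter (fun i => q i = a ∧ s i = b), E a b :=
                  Finset.sum_le_sum (fun i _ => hZE a b i)
              _ = (univ.filter (fun i => q i = a ∧ s i = b)).card * E a b := by simp
              _ ≤ μ * E a b := Nat.mul_le_mul_right _ (hcard a b)
        _ = μ * ∑ b, E a b := by rw [Finset.mul_sum]
        _ ≤ μ * (S * D) := Nat.mul_le_mul_left _ (hErow a)
    have h2 : (∑ b, ∑ t, (X a b t : ℝ)) ≤ (μ : ℝ) * (S * D) := by exact_mod_cast h1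
    refine le_trans h2 ?_
    have h3 : (S : ℝ) ≤ 2 * T := by
      have : S ≤ 2 * T := by omega
      exact_mod_cast this
    have h4 : (0 : ℝ) ≤ (μ : ℝ) * D := by positivity
    nlinarith
  have hKpos : (0 : ℝ) < (μ : ℝ) * D := by
    have h1 : (0 : ℝ) < μ := by exact_mod_cast hμ0
    have h2 : (0 : ℝ) < D := by exact_mod_cast hD0
    positivity
  obtain ⟨o', ho'⟩ := exists_offsets X ((μ : ℝ) * D) hKpos hT0 hXK hXsum hT
  -- choose good offsets for the row blocks
  have hgood : ∀ a : Fin r₁, ∃ o : Fin T, ∀ i, q i = a →
      ¬ β (a.val * S + o.val + u i) (base + (s i).val * S + (o' (s i)).val + v i) := by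
    intro a
    by_contra hcon
    push Not at hcon
    have h1 : (univ : Finset (Fin T)) ⊆ (univ : Finset (Fin r₂)).biUnion (fun b =>
        (univ.filter (fun i => q i = a ∧ s i = b)).biUnion (fun i =>
          univ.filter (fun o : Fin T =>
            β (a.val * S + o.val + u i) (base + b.val * S + (o' b).val + v i)))) := by
      intro o _
      obtain ⟨i, hi, hβi⟩ := hcon o
      simp only [Finset.mem_biUnion, Finset.mem_filter, Finset.mem_univ, true_and]
      exact ⟨s i, i, ⟨hi, rfl⟩, hβi⟩
    have h2 := Finset.card_le_card h1
    have h3 : ((univ : Finset (Fin r₂)).biUnion (fun b =>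
        (univ.filter (fun i => q i = a ∧ s i = b)).biUnion (fun i =>
          univ.filter (fun o : Fin T =>
            β (a.val * S + o.val + u i) (base + b.val * S + (o' b).val + v i))))).card
        ≤ ∑ b, X a b (o' b) := by
      refine le_trans Finset.card_biUnion_le ?_
      refine Finset.sum_le_sum (fun b _ => ?_)
      exact Finset.card_biUnion_le
    have h4 := ho' a
    simp only [Finset.card_univ, Fintype.card_fin] at h2
    omega
  choose o ho using hgood
  refine ⟨fun a => (o a).val, fun b => (o' b).val, fun a => (o a).isLt, fun b => (o' b).isLt, ?_⟩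
  intro i
  exact ho (q i) i rfl

end Pool.Agent.Lib.MP_c11385_co
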