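import Mathlib
import Pool.Agent.Lib.MP_c11385_co.Placement
import Pool.Agent.Lib.MP_c11385_co.Blue

set_option autoImplicit false

namespace Pool.Agent.Lib.MP_c11385_co

open Finset

/-- The edges of `M` crossing the cut `k`, as pairs (left endpoint, right endpoint). -/
def crossEdges {n : ℕ} (M : SimpleGraph (Fin n)) (k : ℕ) : Set (Fin n × Fin n) :=
  {e | M.Adj e.1 e.2 ∧ e.1.val < k ∧ k ≤ e.2.val}

/-- The crossing edges of `M` lying in the same `l × l` cell as the pair `d`. -/
def cellEdges {n : ℕ} (M : SimpleGraph (Fin n)) (k l : ℕ) (d : Fin n × Fin n) :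
    Set (Fin n × Fin n) :=
  {e | e ∈ crossEdges M k ∧ e.1.val / l = d.1.val / l ∧ (e.2.val - k) / l = (d.2.val - k) / l}

/-- The crossing edges of `M` whose `l × l` cell contains more than `μ` edges. -/
def crowdedEdges {n : ℕ} (M : SimpleGraph (Fin n)) (k l μ : ℕ) : Set (Fin n × Fin n) :=
  {e | e ∈ crossEdges M k ∧ μ < (cellEdges M k l e).ncard}

/-- block index on the left: blocks of length `l`, cut before and after every element of `E` -/
def blk (l : ℕ) (E : Finset ℕ) (i : ℕ) : ℕ :=
  i / l + ((E.filter (fun e => e < i)).card + (E.filter (fun e => e ≤ i)).card)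

theorem blk_mono (l : ℕ) (E : Finset ℕ) {i j : ℕ} (h : i ≤ j) :
    i / l ≤ j / l ∧ (E.filter (fun e => e < i)).card ≤ (E.filter (fun e => e < j)).card ∧
      (E.filter (fun e => e ≤ i)).card ≤ (E.filter (fun e => e ≤ j)).card := by
  refine ⟨Nat.div_le_div_right h, Finset.card_le_card ?_, Finset.card_le_card ?_⟩
  · intro e he
    simp only [Finset.mem_filter] at he ⊢
    exact ⟨he.1, by omega⟩
  · intro e he
    simp only [Finset.mem_filter] at he ⊢
    exact ⟨he.1, by omega⟩

theorem blk_eq_div (l : ℕ) (E : Finset ℕ) {i j : ℕ} (h : blk l E i = blk l E j) :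
    i / l = j / l := by
  unfold blk at h
  rcases le_total i j with hij | hij
  · obtain ⟨h1, h2, h3⟩ := blk_mono l E hij
    omega
  · obtain ⟨h1, h2, h3⟩ := blk_mono l E hij
    omega

theorem blk_singleton (l : ℕ) (E : Finset ℕ) {i j : ℕ} (hi : i ∈ E)
    (h : blk l E i = blk l E j) : i = j := by
  by_contra hne
  unfold blk at h
  rcases lt_or_gt_of_ne hne with hij | hij
  · obtain ⟨h1, h2, h3⟩ := blk_mono l E hij.le
    have : (E.filter (fun e => e < i)).card < (E.filter (fun e => e < j)).card := by
      apply Finset.card_lt_card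
      rw [Finset.ssubset_iff_of_subset]
      · exact ⟨i, by simp [hi, hij], by simp⟩
      · intro e he
        simp only [Finset.mem_filter] at he ⊢
        exact ⟨he.1, by omega⟩
    omega
  · obtain ⟨h1, h2, h3⟩ := blk_mono l E hij.le
    have : (E.filter (fun e => e ≤ j)).card < (E.filter (fun e => e ≤ i)).card := by
      apply Finset.card_lt_card
      rw [Finset.ssubset_iff_of_subset]
      · exact ⟨i, by simp [hi], by simp; intro _; omega⟩
      · intro e he
        simp only [Finset.mem_filter] at he ⊢
        exact ⟨he.1, by omega⟩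
    omega

theorem blk_le (l : ℕ) (E : Finset ℕ) {i n : ℕ} (h : i ≤ n) :
    blk l E i ≤ n / l + 2 * E.card := by
  unfold blk
  have h1 : i / l ≤ n / l := Nat.div_le_div_right h
  have h2 := Finset.card_filter_le E (fun e => e < i)
  have h3 := Finset.card_filter_le E (fun e => e ≤ i)
  omega

/-- The main deterministic statement, with explicit block numbers. -/
theorem main_nat {n k l μ N T r₁ r₂ : ℕ} (hl : 1 ≤ l) (hμ : 1 ≤ μ) (hn : 1 ≤ n)
    (M : SimpleGraph (Fin n))
    (hM1 : ∀ v : Fin n, ∃! w : Fin n, M.Adj v w)
    (hM2 : ∀ i j : Fin n, M.Adj i j → (i.val < k ↔ k ≤ j.val))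
    (hr₁ : n / l + 2 * (crowdedEdges M k l μ).ncard < r₁) (hr₂ : n / l < r₂)
    (hlT : l ≤ T)
    (hT : 8 * (r₁ : ℝ) < (2 : ℝ) ^ ((T : ℝ) / ((μ : ℝ) * n)))
    (hN : (r₁ + r₂) * (T + l) ≤ N)
    (R : SimpleGraph (Fin N)) :
    (∃ f : Fin n → Fin N, StrictMono f ∧ ∀ i j : Fin n, M.Adj i j → R.Adj (f i) (f j)) ∨
    (∃ a b c : Fin N, a < b ∧ b < c ∧ ¬ R.Adj a b ∧ ¬ R.Adj b c ∧ ¬ R.Adj a c) := by
  classical
  by_contra hcon
  push Not at hcon
  obtain ⟨hno, htri⟩ := hcon
  have htri' : ¬ ∃ a b c : Fin N, a < b ∧ b < c ∧ ¬ R.Adj a b ∧ ¬ R.Adj b c ∧ ¬ R.Adj a c := by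
    rintro ⟨a, b, c, h1, h2, h3, h4, h5⟩
    exact h5 (htri a b c h1 h2 h3 h4)
  have hno' : ¬ ∃ f : Fin n → Fin N, StrictMono f ∧
      ∀ i j : Fin n, M.Adj i j → R.Adj (f i) (f j) := by
    rintro ⟨f, h1, h2⟩
    obtain ⟨i, j, h3, h4⟩ := hno f h1
    exact h4 (h2 i j h3)
  have hdeg := fun x => blue_degree_le M htri' hno' x
  have hdeg' : ∀ y, Set.ncard {x | Blue R x y} ≤ n := by
    intro y
    have : {x | Blue R x y} = {x | Blue R y x} := by
      ext x
      exact ⟨fun h => h.symm, fun h => h.symm⟩
    rw [this]
    exact hdeg y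
  set ι := {e : Fin n × Fin n // e ∈ crossEdges M k} with hι
  set E : Finset ℕ := (crowdedEdges M k l μ).toFinset.image (fun e => e.1.val) with hE
  have hEcard : E.card ≤ (crowdedEdges M k l μ).ncard := by
    rw [hE, Set.ncard_eq_toFinset_card']
    exact Finset.card_image_le
  have hblk : ∀ i : Fin n, blk l E i.val < r₁ := by
    intro i
    have := blk_le l E (i := i.val) (n := n) i.isLt.le
    omega
  have hs : ∀ j : Fin n, (j.val - k) / l < r₂ := by
    intro j
    have : (j.val - k) / l ≤ n / l := Nat.div_le_div_right (by have := j.isLt; omega)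
    omega
  set S := T + l with hS
  have hS0 : 0 < S := by omega
  obtain ⟨o, o', ho, ho', hgood⟩ := placement (ι := ι) r₁ r₂ T l n μ N (r₁ * S)
    (fun e => ⟨blk l E e.val.1.val, hblk _⟩) (fun e => ⟨(e.val.2.val - k) / l, hs _⟩)
    (fun e => e.val.1.val % l) (fun e => (e.val.2.val - k) % l)
    (fun e => Nat.mod_lt _ hl) (fun e => Nat.mod_lt _ hl)
    (Blue R) (fun x y h => ⟨h.1, h.2.1⟩) hdeg hdeg' (by
      intro a b
      by_cases hex : ∃ i0 : ι, (⟨blk l E i0.val.1.val, hblk _⟩ : Fin r₁) = a ∧
          (⟨(i0.val.2.val - k) / l, hs _⟩ : Fin r₂) = b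
      swap
      · have : {i : ι | (⟨blk l E i.val.1.val, hblk _⟩ : Fin r₁) = a ∧
          (⟨(i.val.2.val - k) / l, hs _⟩ : Fin r₂) = b} = ∅ := by
          ext i
          simp only [Set.mem_ofPred_eq, Set.mem_empty_iff_false, iff_false]
          intro h
          exact hex ⟨i, h⟩
        rw [this]
        simp
      obtain ⟨i0, hi0a, hi0b⟩ := hex
      by_cases hcr : i0.val.1.val ∈ E
      · -- singleton block
        have : {i : ι | (⟨blk l E i.val.1.val, hblk _⟩ : Fin r₁) = a ∧
          (⟨(i.val.2.val - k) / l, hs _⟩ : Fin r₂) = b} ⊆ {i0} := by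
          rintro i ⟨hia, -⟩
          have h1 : blk l E i0.val.1.val = blk l E i.val.1.val := by
            have := hi0a.trans hia.symm
            simpa using congrArg Fin.val this
          have h2 := blk_singleton l E hcr h1
          have h3 : i0.val.1 = i.val.1 := Fin.ext h2
          have h4 : i0.val.2 = i.val.2 := by
            obtain ⟨w, hw, huw⟩ := hM1 i0.val.1
            rw [huw _ i0.property.1]
            symm
            apply huw
            rw [h3]
            exact i.property.1
          simp only [Set.mem_singleton_iff]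
          apply Subtype.ext
          exact (Prod.ext h3 h4).symm
        refine le_trans (Set.ncard_le_ncard this) ?_
        simpa using hμ
      · have hnc : (cellEdges M k l i0.val).ncard ≤ μ := by
          by_contra hc
          push Not at hc
          apply hcr
          rw [hE]
          simp only [Finset.mem_image, Set.mem_toFinset]
          exact ⟨i0.val, ⟨i0.property, hc⟩, rfl⟩
        refine le_trans ?_ hnc
        refine Set.ncard_le_ncard_of_injOn (fun i : ι => i.val) ?_ ?_ (Set.toFinite _)
        · rintro i ⟨hia, hib⟩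
          refine ⟨i.property, ?_, ?_⟩
          · have h1 : blk l E i.val.1.val = blk l E i0.val.1.val := by
              have := hia.trans hi0a.symm
              simpa using congrArg Fin.val this
            exact blk_eq_div l E h1
          · have := hib.trans hi0b.symm
            simpa using congrArg Fin.val this
        · intro i _ j _ hij
          exact Subtype.ext hij)
    hμ hn hlT (by omega) hT
  -- the embedding
  set pos : Fin n → ℕ := fun v =>
    if v.val < k then blk l E v.val * S + o ⟨blk l E v.val, hblk v⟩ + v.val % l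
    else r₁ * S + ((v.val - k) / l) * S + o' ⟨(v.val - k) / l, hs v⟩ + (v.val - k) % l with hpos
  have hposL : ∀ v : Fin n, v.val < k → pos v = blk l E v.val * S + o ⟨blk l E v.val, hblk v⟩
      + v.val % l := by
    intro v hv
    simp only [hpos, if_pos hv]
  have hposR : ∀ v : Fin n, ¬ v.val < k → pos v = r₁ * S + ((v.val - k) / l) * S
      + o' ⟨(v.val - k) / l, hs v⟩ + (v.val - k) % l := by
    intro v hv
    simp only [hpos, if_neg hv]
  have hmul : ∀ a b : ℕ, a < b → a * S + S ≤ b * S := by
    intro a b hab
    calc a * S + S = (a + 1) * S := by ring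
      _ ≤ b * S := Nat.mul_le_mul_right _ hab
  have hltL : ∀ v : Fin n, v.val < k → pos v < r₁ * S := by
    intro v hv
    rw [hposL v hv]
    have h1 := ho ⟨blk l E v.val, hblk v⟩
    have h2 := Nat.mod_lt v.val (show 0 < l from hl)
    have h3 := hmul _ _ (hblk v)
    omega
  have hlt : ∀ v : Fin n, pos v < N := by
    intro v
    by_cases hv : v.val < k
    · have h1 := hltL v hv
      have h2 : r₁ * S ≤ (r₁ + r₂) * S := Nat.mul_le_mul_right _ (by omega)
      omega
    · rw [hposR v hv]
      have h1 := ho' ⟨(v.val - k) / l, hs v⟩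
      have h2 := Nat.mod_lt (v.val - k) (show 0 < l from hl)
      have h3 := hmul _ _ (hs v)
      have h4 : (r₁ + r₂) * S = r₁ * S + r₂ * S := by ring
      omega
  have hmono : ∀ v w : Fin n, v < w → pos v < pos w := by
    intro v w hvw
    have hvw' : v.val < w.val := hvw
    by_cases hw : w.val < k
    · have hv : v.val < k := by omega
      rw [hposL v hv, hposL w hw]
      have h2 := Nat.mod_lt v.val (show 0 < l from hl)
      rcases lt_trichotomy (blk l E v.val) (blk l E w.val) with h | h | h
      · have h1 := ho ⟨blk l E v.val, hblk v⟩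
        have h3 := hmul _ _ h
        omega
      · have h3 := blk_eq_div l E h
        have h4 : o ⟨blk l E v.val, hblk v⟩ = o ⟨blk l E w.val, hblk w⟩ := by
          congr 1
          exact Fin.ext h
        have h5 : blk l E v.val * S = blk l E w.val * S := by rw [h]
        have h6 := Nat.div_add_mod v.val l
        have h7 := Nat.div_add_mod w.val l
        rw [h3] at h6
        omega
      · exfalso
        obtain ⟨h3, h4, h5⟩ := blk_mono l E hvw'.le
        unfold blk at h
        omega
    · by_cases hv : v.val < k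
      · have h1 := hltL v hv
        rw [hposR w hw]
        omega
      · rw [hposR v hv, hposR w hw]
        have h2 := Nat.mod_lt (v.val - k) (show 0 < l from hl)
        have hle : (v.val - k) / l ≤ (w.val - k) / l := Nat.div_le_div_right (by omega)
        rcases Nat.lt_or_ge ((v.val - k) / l) ((w.val - k) / l) with h | h
        · have h1 := ho' ⟨(v.val - k) / l, hs v⟩
          have h3 := hmul _ _ h
          omega
        · have h3 : (v.val - k) / l = (w.val - k) / l := le_antisymm hle h
          have h4 : o' ⟨(v.val - k) / l, hs v⟩ = o' ⟨(w.val - k) / l, hs w⟩ := by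
            congr 1
            exact Fin.ext h3
          have h5 : (v.val - k) / l * S = (w.val - k) / l * S := by rw [h3]
          have h6 := Nat.div_add_mod (v.val - k) l
          have h7 := Nat.div_add_mod (w.val - k) l
          rw [h3] at h6
          omega
  apply hno'
  refine ⟨fun v => ⟨pos v, hlt v⟩, fun v w hvw => hmono v w hvw, ?_⟩
  have key : ∀ i j : Fin n, M.Adj i j → i.val < k →
      R.Adj ⟨pos i, hlt i⟩ ⟨pos j, hlt j⟩ := by
    intro i j hij hi
    have hj : k ≤ j.val := (hM2 i j hij).1 hi
    have h1 := hgood ⟨(i, j), hij, hi, hj⟩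
    by_contra h2
    apply h1
    have hpi := hposL i hi
    have hpj := hposR j (by omega)
    have hne : pos i ≠ pos j := by
      have := hmono i j (by
        show i.val < j.val
        omega)
      omega
    have h3 : Blue R (pos i) (pos j) := ⟨hlt i, hlt j, hne, h2⟩
    rw [hpi, hpj] at h3
    exact h3
  intro i j hij
  by_cases hi : i.val < k
  · exact key i j hij hi
  · have hj : j.val < k := by
      have := hM2 i j hij
      by_contra h
      exact hi (this.2 (by omega))
    exact (key j i hij.symm hj).symm

end Pool.Agent.Lib.MP_c11385_co
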