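import Mathlib
import Pool.Agent.Lib.MP_c11385_co.Main

set_option autoImplicit false

namespace Pool.Agent.Lib.MP_c11385_co

open Finset

/-- Deterministic upper bound. -/
theorem uncrowded (n k l μ : ℕ) (hl : 1 ≤ l) (hln : l ≤ n) (hμ : 1 ≤ μ)
    (M : SimpleGraph (Fin n))
    (hM1 : ∀ v : Fin n, ∃! w : Fin n, M.Adj v w)
    (hM2 : ∀ i j : Fin n, M.Adj i j → (i.val < k ↔ k ≤ j.val))
    (hcr : (crowdedEdges M k l μ).ncard * l ≤ n)
    (N : ℕ) (hN : 72 * (n : ℝ) ^ 2 * μ * (1 + Real.log n) / l ≤ N)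
    (R : SimpleGraph (Fin N)) :
    (∃ f : Fin n → Fin N, StrictMono f ∧ ∀ i j : Fin n, M.Adj i j → R.Adj (f i) (f j)) ∨
    (∃ a b c : Fin N, a < b ∧ b < c ∧ ¬ R.Adj a b ∧ ¬ R.Adj b c ∧ ¬ R.Adj a c) := by
  have hn : 1 ≤ n := le_trans hl hln
  set c := (crowdedEdges M k l μ).ncard with hc
  set r₁ := n / l + 2 * c + 1 with hr₁
  set r₂ := n / l + 1 with hr₂
  set T := μ * n * (Nat.log 2 r₁ + 4) with hT
  have hnR : (1 : ℝ) ≤ n := by exact_mod_cast hn
  have hlR : (1 : ℝ) ≤ l := by exact_mod_cast hl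
  have hμR : (1 : ℝ) ≤ μ := by exact_mod_cast hμ
  have hlnR : (l : ℝ) ≤ n := by exact_mod_cast hln
  have hlogn : 0 ≤ Real.log n := Real.log_nonneg hnR
  have hlT : l ≤ T := by
    calc l ≤ n := hln
      _ = 1 * n * 1 := by ring
      _ ≤ μ * n * (Nat.log 2 r₁ + 4) := by
        apply Nat.mul_le_mul (Nat.mul_le_mul_right _ hμ) (by omega)
  refine main_nat (T := T) (r₁ := r₁) (r₂ := r₂) hl hμ hn M hM1 hM2 (by omega) (by omega) hlT
    ?_ ?_ R
  · have h1 : (T : ℝ) / ((μ : ℝ) * n) = ((Nat.log 2 r₁ + 4 : ℕ) : ℝ) := by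
      rw [hT]
      push_cast
      field_simp
    rw [h1, Real.rpow_natCast]
    have h2 : r₁ < 2 ^ (Nat.log 2 r₁ + 1) := Nat.lt_pow_succ_log_self (by norm_num) r₁
    have h3 : 8 * r₁ < 2 ^ (Nat.log 2 r₁ + 4) := by
      have : 2 ^ (Nat.log 2 r₁ + 4) = 8 * 2 ^ (Nat.log 2 r₁ + 1) := by ring
      omega
    exact_mod_cast h3
  · -- numerics
    have hdiv : ((n / l : ℕ) : ℝ) ≤ n / l := Nat.cast_div_le
    have hcl : (c : ℝ) ≤ n / l := by
      rw [le_div_iff₀ (by linarith)]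
      exact_mod_cast hcr
    have h1l : 1 ≤ (n : ℝ) / l := by
      rw [le_div_iff₀ (by linarith)]
      linarith
    have hr1R : (r₁ : ℝ) ≤ 4 * (n / l) := by
      rw [hr₁]; push_cast; linarith
    have hr2R : (r₂ : ℝ) ≤ 2 * (n / l) := by
      rw [hr₂]; push_cast; linarith
    have hr1n : (r₁ : ℝ) ≤ 4 * n := by
      have : (n : ℝ) / l ≤ n := div_le_self (by linarith) hlR
      linarith
    have hlog : (Nat.log 2 r₁ : ℝ) ≤ 2 + 1.5 * Real.log n := by
      have h1 : (Nat.log 2 r₁ : ℝ) ≤ Real.logb 2 r₁ := by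
        have := Real.natLog_le_logb r₁ 2
        simpa using this
      have hl2 : 0.69 < Real.log 2 := by
        have := Real.log_two_gt_d9
        linarith
      have h2 : Real.logb 2 r₁ ≤ Real.logb 2 (4 * n) := by
        apply Real.logb_le_logb_of_le (by norm_num) _ hr1n
        have : 0 < r₁ := Nat.succ_pos _
        exact_mod_cast this
      have h3 : Real.logb 2 (4 * n) = 2 + Real.log n / Real.log 2 := by
        rw [Real.logb_mul (by norm_num) (by linarith)]
        have : Real.logb 2 4 = 2 := by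
          rw [show (4 : ℝ) = 2 ^ (2 : ℝ) by norm_num]
          exact Real.logb_rpow (by norm_num) (by norm_num)
        rw [this]
        rfl
      have h4 : Real.log n / Real.log 2 ≤ 1.5 * Real.log n := by
        rw [div_le_iff₀ (by linarith)]
        nlinarith
      linarith
    have hTR : (T : ℝ) ≤ 6 * (μ * n) * (1 + Real.log n) := by
      rw [hT]
      push_cast
      have h5 : (0 : ℝ) ≤ (μ : ℝ) * n := by positivity
      nlinarith
    have hTl : ((T + l : ℕ) : ℝ) ≤ 2 * T := by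
      have : T + l ≤ 2 * T := by omega
      exact_mod_cast this
    have h6 : (((r₁ + r₂) * (T + l) : ℕ) : ℝ) ≤ N := by
      refine le_trans ?_ hN
      rw [Nat.cast_mul]
      have h7 : ((r₁ + r₂ : ℕ) : ℝ) ≤ 6 * (n / l) := by push_cast; linarith
      calc ((r₁ + r₂ : ℕ) : ℝ) * ((T + l : ℕ) : ℝ)
          ≤ (6 * (n / l)) * (2 * (6 * (μ * n) * (1 + Real.log n))) := by
            apply mul_le_mul h7 (by linarith) (by positivity) (by positivity)
        _ = 72 * (n : ℝ) ^ 2 * μ * (1 + Real.log n) / l := by ring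
    exact_mod_cast h6

end Pool.Agent.Lib.MP_c11385_co
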