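import Mathlib
import Pool.Agent.Lib.MP_c11385_co.Uncrowded
import Pool.Agent.Lib.MP_c11385_co.PermCount

set_option autoImplicit false

namespace Pool.Agent.Lib.MP_c11385_co

open Finset

/-- The ordered matching on `m + m` vertices joining `i` to `m + σ i` for all `i < m`. -/
def permMatching {m : ℕ} (σ : Equiv.Perm (Fin m)) : SimpleGraph (Fin (m + m)) where
  Adj v w := (∃ i : Fin m, v.val = i.val ∧ w.val = m + (σ i).val) ∨
    (∃ i : Fin m, w.val = i.val ∧ v.val = m + (σ i).val)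
  symm := ⟨fun _ _ h => h.symm⟩
  loopless := ⟨by
    rintro v (⟨i, h1, h2⟩ | ⟨i, h1, h2⟩)
    · have := i.isLt
      omega
    · have := i.isLt
      omega⟩

theorem permMatching_cut {m : ℕ} (σ : Equiv.Perm (Fin m)) (v w : Fin (m + m))
    (h : (permMatching σ).Adj v w) : v.val < m ↔ m ≤ w.val := by
  rcases h with ⟨i, h1, h2⟩ | ⟨i, h1, h2⟩
  · have := i.isLt
    omega
  · have := i.isLt
    omega

theorem permMatching_perfect {m : ℕ} (σ : Equiv.Perm (Fin m)) (v : Fin (m + m)) :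
    ∃! w, (permMatching σ).Adj v w := by
  by_cases hv : v.val < m
  · refine ⟨⟨m + (σ ⟨v.val, hv⟩).val, by omega⟩, Or.inl ⟨⟨v.val, hv⟩, rfl, rfl⟩, ?_⟩
    rintro w (⟨i, h1, h2⟩ | ⟨i, h1, h2⟩)
    · have hi : i = ⟨v.val, hv⟩ := Fin.ext h1.symm
      apply Fin.ext
      rw [h2, hi]
    · omega
  · have hv' : v.val - m < m := by omega
    set i0 := σ.symm ⟨v.val - m, hv'⟩ with hi0
    have hσ : σ i0 = ⟨v.val - m, hv'⟩ := by simp [hi0]
    have hlt := i0.isLt
    refine ⟨⟨i0.val, by omega⟩, Or.inr ⟨i0, rfl, ?_⟩, ?_⟩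
    · rw [hσ]
      simp only
      omega
    · rintro w (⟨i, h1, h2⟩ | ⟨i, h1, h2⟩)
      · have := i.isLt
        omega
      · have h3 : σ i = ⟨v.val - m, hv'⟩ := by
          apply Fin.ext
          simp only
          omega
        have h4 : i = i0 := by
          rw [hi0, ← h3]
          simp
        apply Fin.ext
        rw [h1, h4]

theorem uncrowded_perm {m l t : ℕ} (ht : 0 < t) (σ : Equiv.Perm (Fin m))
    (h : ¬ ∃ a ∈ range (m + 1), ∃ b ∈ range (m + 1),
      t ≤ ((cellIdx l a).filter (fun i => σ i ∈ cellIdx l b)).card) :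
    (crowdedEdges (permMatching σ) m l (t - 1)).ncard = 0 := by
  classical
  have : crowdedEdges (permMatching σ) m l (t - 1) = ∅ := by
    ext d
    simp only [Set.mem_empty_iff_false, iff_false]
    rintro ⟨hd, hcr⟩
    apply h
    obtain ⟨hd1, hd2, hd3⟩ := hd
    refine ⟨d.1.val / l, ?_, (d.2.val - m) / l, ?_, ?_⟩
    · have := Nat.div_le_self d.1.val l
      simp only [Finset.mem_range]
      omega
    · have := Nat.div_le_self (d.2.val - m) l
      have := d.2.isLt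
      simp only [Finset.mem_range]
      omega
    · have h1 : (cellEdges (permMatching σ) m l d).ncard ≤
          ((cellIdx (m := m) l (d.1.val / l)).filter
            (fun i => σ i ∈ cellIdx l ((d.2.val - m) / l))).card := by
        rw [← Set.ncard_coe_finset]
        refine Set.ncard_le_ncard_of_injOn
          (fun e => if he : e.1.val < m then (⟨e.1.val, he⟩ : Fin m) else ⟨0, by omega⟩) ?_ ?_
          (Set.toFinite _)
        · rintro e ⟨⟨he1, he2, he3⟩, he4, he5⟩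
          simp only [he2, dif_pos, Finset.coe_filter, Set.mem_ofPred_eq, cellIdx,
            Finset.mem_filter, Finset.mem_univ, true_and]
          refine ⟨he4, ?_⟩
          rcases he1 with ⟨i, hi1, hi2⟩ | ⟨i, hi1, hi2⟩
          · have hi : i = ⟨e.1.val, he2⟩ := Fin.ext hi1.symm
            rw [← he5, hi2, hi]
            simp
          · omega
        · rintro e ⟨⟨he1, he2, he3⟩, he4, he5⟩ e' ⟨⟨he1', he2', he3'⟩, he4', he5'⟩ hee
          simp only [he2, he2', dif_pos, Fin.mk.injEq] at hee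
          have h1 : e.1 = e'.1 := Fin.ext hee
          obtain ⟨w, hw, huw⟩ := permMatching_perfect σ e.1
          have h2 : e.2 = w := huw _ he1
          have h3 : e'.2 = w := by
            apply huw
            rw [h1]
            exact he1'
          exact Prod.ext h1 (h2.trans h3.symm)
      omega
  rw [this]
  simp

/-- The Ramsey property for all `N` at least `648 n^(3/2) (1 + log n)^2`. -/
theorem good_of_uncrowded {m : ℕ} (hm : 32 ≤ m) (σ : Equiv.Perm (Fin m))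
    (h : ¬ ∃ a ∈ range (m + 1), ∃ b ∈ range (m + 1),
      2 * Nat.log 2 m + 4 ≤
        ((cellIdx (Nat.sqrt m) a).filter (fun i => σ i ∈ cellIdx (Nat.sqrt m) b)).card)
    (N : ℕ) (hN : 648 * ((m + m : ℕ) : ℝ) ^ (3 / 2 : ℝ) * (1 + Real.log ((m + m : ℕ) : ℝ)) ^ 2 ≤ N)
    (R : SimpleGraph (Fin N)) :
    (∃ f : Fin (m + m) → Fin N, StrictMono f ∧
      ∀ i j : Fin (m + m), (permMatching σ).Adj i j → R.Adj (f i) (f j)) ∨
    (∃ a b c : Fin N, a < b ∧ b < c ∧ ¬ R.Adj a b ∧ ¬ R.Adj b c ∧ ¬ R.Adj a c) := by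
  set l := Nat.sqrt m with hl
  have hl1 : 1 ≤ l := Nat.sqrt_pos.mpr (by omega)
  have hlm : l ≤ m := Nat.sqrt_le_self m
  set n := m + m with hn
  have hnR : (64 : ℝ) ≤ n := by
    have : 64 ≤ n := by omega
    exact_mod_cast this
  have hlogn : 0 ≤ Real.log n := Real.log_nonneg (by linarith)
  have hcr := uncrowded_perm (m := m) (l := l) (t := 2 * Nat.log 2 m + 4) (by omega) σ h
  refine uncrowded n m l (2 * Nat.log 2 m + 4 - 1) hl1 (by omega) (by omega) (permMatching σ)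
    (permMatching_perfect σ) (permMatching_cut σ) (by rw [hcr]; omega) N ?_ R
  refine le_trans ?_ hN
  have hsq : Real.sqrt n ≤ 3 * l := by
    have h1 : m < (l + 1) * (l + 1) := Nat.lt_succ_sqrt m
    have h2 : n ≤ (3 * l) * (3 * l) := by nlinarith
    rw [show (3 : ℝ) * l = Real.sqrt ((3 * l) * (3 * l)) by
      rw [Real.sqrt_mul_self (by positivity)]]
    apply Real.sqrt_le_sqrt
    exact_mod_cast h2
  have hμ : ((2 * Nat.log 2 m + 4 - 1 : ℕ) : ℝ) ≤ 3 * (1 + Real.log n) := by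
    have h1 : (Nat.log 2 m : ℝ) ≤ Real.logb 2 m := by
      have := Real.natLog_le_logb m 2
      simpa using this
    have hl2 : 0.69 < Real.log 2 := by
      have := Real.log_two_gt_d9
      linarith
    have hmR : (32 : ℝ) ≤ m := by exact_mod_cast hm
    have h3 : Real.logb 2 m ≤ 1.45 * Real.log n := by
      have h4 : Real.logb 2 m = Real.log m / Real.log 2 := rfl
      rw [h4, div_le_iff₀ (by linarith)]
      have h5 : Real.log m ≤ Real.log n := by
        apply Real.log_le_log (by linarith)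
        have : m ≤ n := by omega
        exact_mod_cast this
      nlinarith
    have h6 : (2 * Nat.log 2 m + 4 - 1 : ℕ) = 2 * Nat.log 2 m + 3 := by omega
    rw [h6]
    push_cast
    linarith
  have hlR : (1 : ℝ) ≤ l := by exact_mod_cast hl1
  have hpow : (n : ℝ) ^ (3 / 2 : ℝ) * Real.sqrt n = (n : ℝ) ^ 2 := by
    rw [Real.sqrt_eq_rpow, ← Real.rpow_add (by linarith)]
    norm_num
  rw [div_le_iff₀ (by linarith)]
  have hp0 : (0 : ℝ) ≤ (n : ℝ) ^ (3 / 2 : ℝ) := by positivity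
  calc 72 * (n : ℝ) ^ 2 * ((2 * Nat.log 2 m + 4 - 1 : ℕ) : ℝ) * (1 + Real.log n)
      ≤ 72 * (n : ℝ) ^ 2 * (3 * (1 + Real.log n)) * (1 + Real.log n) := by gcongr
    _ = 216 * ((n : ℝ) ^ (3 / 2 : ℝ) * Real.sqrt n) * (1 + Real.log n) ^ 2 := by
        rw [hpow]; ring
    _ ≤ 216 * ((n : ℝ) ^ (3 / 2 : ℝ) * (3 * l)) * (1 + Real.log n) ^ 2 := by gcongr
    _ = 648 * (n : ℝ) ^ (3 / 2 : ℝ) * (1 + Real.log n) ^ 2 * l := by ring

theorem four_log_le {m : ℕ} (hm : 32 ≤ m) : 4 * Nat.log 2 m + 6 ≤ m := by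
  have h1 : 2 ^ Nat.log 2 m ≤ m := Nat.pow_log_le_self 2 (by omega)
  have h2 : 5 ≤ Nat.log 2 m := by
    have : Nat.log 2 32 ≤ Nat.log 2 m := Nat.log_mono_right hm
    have h3 : Nat.log 2 32 = 5 := by
      rw [show (32 : ℕ) = 2 ^ 5 by norm_num, Nat.log_pow (by norm_num)]
    omega
  have h4 : ∀ k : ℕ, 5 ≤ k → 4 * k + 6 ≤ 2 ^ k := by
    intro k hk
    induction k, hk using Nat.le_induction with
    | base => norm_num
    | succ k hk ih => rw [pow_succ]; omega
  exact le_trans (h4 _ h2) h1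

/-- Few permutations fail the Ramsey property. -/
theorem almost_all (m : ℕ) :
    ((Set.ncard {σ : Equiv.Perm (Fin m) | ¬ ∀ N : ℕ,
      648 * ((m + m : ℕ) : ℝ) ^ (3 / 2 : ℝ) * (1 + Real.log ((m + m : ℕ) : ℝ)) ^ 2 ≤ N →
      ∀ R : SimpleGraph (Fin N),
      (∃ f : Fin (m + m) → Fin N, StrictMono f ∧
        ∀ i j : Fin (m + m), (permMatching σ).Adj i j → R.Adj (f i) (f j)) ∨
      (∃ a b c : Fin N, a < b ∧ b < c ∧ ¬ R.Adj a b ∧ ¬ R.Adj b c ∧ ¬ R.Adj a c)}) : ℝ)
      * m ^ 2 ≤ 1024 * m.factorial := by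
  classical
  set Bad := {σ : Equiv.Perm (Fin m) | ¬ ∀ N : ℕ,
      648 * ((m + m : ℕ) : ℝ) ^ (3 / 2 : ℝ) * (1 + Real.log ((m + m : ℕ) : ℝ)) ^ 2 ≤ N →
      ∀ R : SimpleGraph (Fin N),
      (∃ f : Fin (m + m) → Fin N, StrictMono f ∧
        ∀ i j : Fin (m + m), (permMatching σ).Adj i j → R.Adj (f i) (f j)) ∨
      (∃ a b c : Fin N, a < b ∧ b < c ∧ ¬ R.Adj a b ∧ ¬ R.Adj b c ∧ ¬ R.Adj a c)} with hBad
  have htriv : (Bad.ncard : ℝ) ≤ m.factorial := by
    have h1 : Bad.ncard ≤ (Set.univ : Set (Equiv.Perm (Fin m))).ncard :=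
      Set.ncard_le_ncard (Set.subset_univ _)
    rw [Set.ncard_univ, Nat.card_eq_fintype_card, Fintype.card_perm, Fintype.card_fin] at h1
    exact_mod_cast h1
  have hf0 : (0 : ℝ) ≤ m.factorial := by positivity
  by_cases hm : 32 ≤ m
  swap
  · have h2 : (m : ℝ) ≤ 32 := by
      have : m ≤ 32 := by omega
      exact_mod_cast this
    have h3 : (m : ℝ) ^ 2 ≤ 1024 := by
      have : (0 : ℝ) ≤ m := by positivity
      nlinarith
    have h4 : (0 : ℝ) ≤ (m : ℝ) ^ 2 := by positivity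
    nlinarith
  set l := Nat.sqrt m with hl
  set t := 2 * Nat.log 2 m + 4 with ht
  set B := univ.filter (fun σ : Equiv.Perm (Fin m) => ∃ a ∈ range (m + 1), ∃ b ∈ range (m + 1),
      t ≤ ((cellIdx l a).filter (fun i => σ i ∈ cellIdx l b)).card) with hB
  have h1 : Bad.ncard ≤ B.card := by
    rw [← Set.ncard_coe_finset]
    apply Set.ncard_le_ncard _ (Set.toFinite _)
    intro σ hσ
    by_contra hσB
    apply hσ
    intro N hN R
    refine good_of_uncrowded hm σ ?_ N hN R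
    intro hex
    apply hσB
    simp only [hB, Finset.coe_filter, Finset.mem_univ, true_and, Set.mem_ofPred_eq]
    exact hex
  have hlog := four_log_le hm
  have h2 : B.card * t.factorial ≤ 2 ^ t * (m + 1) ^ 2 * m.factorial := by
    have := card_crowded (m := m) (l := l) (t := t) (Nat.sqrt_pos.mpr (by omega))
      (Nat.sqrt_le m) (by omega)
    convert! this using 3
  have h3 : (B.card : ℝ) * t.factorial ≤ 2 ^ t * (m + 1) ^ 2 * m.factorial := by exact_mod_cast h2
  have h4 : (8 : ℝ) ^ t ≤ Real.exp 8 * t.factorial := by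
    have := Real.pow_div_factorial_le_exp (8 : ℝ) (by norm_num) t
    rw [div_le_iff₀ (by positivity)] at this
    exact this
  have he8 : Real.exp 8 ≤ 4096 := by
    have h5 := Real.exp_one_lt_d9
    have h6 : Real.exp 8 = Real.exp 1 ^ 8 := by
      rw [← Real.exp_nat_mul]; norm_num
    rw [h6]
    have h7 : (0 : ℝ) < Real.exp 1 := Real.exp_pos 1
    calc Real.exp 1 ^ 8 ≤ (2.8 : ℝ) ^ 8 := by
          apply pow_le_pow_left₀ h7.le (by linarith)
      _ ≤ 4096 := by norm_num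
  have h4t : 16 * (m : ℝ) ^ 4 ≤ (4 : ℝ) ^ t := by
    have h8 : m < 2 ^ (Nat.log 2 m + 1) := Nat.lt_pow_succ_log_self (by norm_num) m
    have h9 : 16 * m ^ 4 ≤ 4 ^ t := by
      calc 16 * m ^ 4 ≤ 16 * (2 ^ (Nat.log 2 m + 1)) ^ 4 :=
            Nat.mul_le_mul_left _ (Nat.pow_le_pow_left h8.le 4)
        _ = 4 ^ t := by
            rw [ht, show (4 : ℕ) = 2 ^ 2 by norm_num, show (16 : ℕ) = 2 ^ 4 by norm_num,
              ← pow_mul, ← pow_mul, ← pow_add]
            congr 1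
            ring
    exact_mod_cast h9
  have hmR : (32 : ℝ) ≤ m := by exact_mod_cast hm
  have hBc : (0 : ℝ) ≤ (B.card : ℝ) := by positivity
  have h10 : (B.card : ℝ) * (8 : ℝ) ^ t ≤ Real.exp 8 * (2 ^ t * (m + 1) ^ 2 * m.factorial) := by
    calc (B.card : ℝ) * (8 : ℝ) ^ t ≤ B.card * (Real.exp 8 * t.factorial) := by gcongr
      _ = Real.exp 8 * (B.card * t.factorial) := by ring
      _ ≤ _ := by gcongr
  have h11 : (B.card : ℝ) * (4 : ℝ) ^ t ≤ Real.exp 8 * ((m + 1) ^ 2 * m.factorial) := by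
    have h12 : (8 : ℝ) ^ t = 2 ^ t * 4 ^ t := by rw [← mul_pow]; norm_num
    rw [h12] at h10
    have h13 : (0 : ℝ) < 2 ^ t := by positivity
    have h14 : (2 : ℝ) ^ t * (B.card * 4 ^ t) ≤
        2 ^ t * (Real.exp 8 * ((m + 1) ^ 2 * m.factorial)) := by linarith
    exact le_of_mul_le_mul_left h14 h13
  have h15 : (B.card : ℝ) * (16 * (m : ℝ) ^ 4) ≤ 4096 * ((2 * m) ^ 2 * m.factorial) := by
    calc (B.card : ℝ) * (16 * (m : ℝ) ^ 4) ≤ B.card * 4 ^ t := by gcongr
      _ ≤ Real.exp 8 * ((m + 1) ^ 2 * m.factorial) := h11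
      _ ≤ 4096 * ((2 * m) ^ 2 * m.factorial) := by
        gcongr
        linarith
  have h16 : (B.card : ℝ) * m ^ 2 ≤ 1024 * m.factorial := by
    have h17 : (0 : ℝ) < (m : ℝ) ^ 2 := by positivity
    have h18 : (16 * (m : ℝ) ^ 2) * (B.card * m ^ 2) ≤ (16 * (m : ℝ) ^ 2) * (1024 * m.factorial) := by
      nlinarith
    exact le_of_mul_le_mul_left h18 (by positivity)
  have h19 : (Bad.ncard : ℝ) ≤ B.card := by exact_mod_cast h1
  have h20 : (0 : ℝ) ≤ (m : ℝ) ^ 2 := by positivity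
  have h21 := mul_le_mul_of_nonneg_right h19 h20
  exact le_trans h21 h16

end Pool.Agent.Lib.MP_c11385_co
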