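import Mathlib
import Pool.Agent.Lib.MP_c11385_co.Core

set_option autoImplicit false

namespace Pool.Agent.Lib.MP_c11385_co

open Finset

theorem exp_third_le : Real.exp (1 / 3) ≤ (2 : ℝ) ^ (1 / 2 : ℝ) := by
  have h1 : Real.exp (1 / 3) = Real.exp 1 ^ (1 / 3 : ℝ) := by
    rw [← Real.exp_mul]; norm_num
  have h2 : (2 : ℝ) ^ (1 / 2 : ℝ) = ((8 : ℝ) ^ (1 / 2 : ℝ)) ^ (1 / 3 : ℝ) := by
    rw [← Real.rpow_mul (by norm_num), show (8 : ℝ) = 2 ^ (3 : ℝ) by norm_num,
      ← Real.rpow_mul (by norm_num)]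
    norm_num
  rw [h1, h2]
  apply Real.rpow_le_rpow (Real.exp_pos 1).le _ (by norm_num)
  have h3 := Real.exp_one_lt_d9
  have h4 : (2.75 : ℝ) ≤ (8 : ℝ) ^ (1 / 2 : ℝ) := by
    rw [← Real.sqrt_eq_rpow]
    apply Real.le_sqrt_of_sq_le
    norm_num
  linarith

theorem exp_div_three_le {z : ℝ} (hz : 0 ≤ z) : Real.exp (z / 3) ≤ (2 : ℝ) ^ (z / 2) := by
  have h1 : Real.exp (z / 3) = Real.exp (1 / 3) ^ z := by
    rw [← Real.exp_mul]; congr 1; ring
  have h2 : (2 : ℝ) ^ (z / 2) = ((2 : ℝ) ^ (1 / 2 : ℝ)) ^ z := by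
    rw [← Real.rpow_mul (by norm_num)]; congr 1; ring
  rw [h1, h2]
  exact Real.rpow_le_rpow (Real.exp_pos _).le exp_third_le hz

/-- Averaging lemma with block-dependent parameters. -/
theorem exists_offsets_gen {r₁ r₂ : ℕ} (T : Fin r₁ → ℕ) (T' : Fin r₂ → ℕ)
    (hT' : ∀ b, 0 < T' b)
    (X : Fin r₁ → (b : Fin r₂) → Fin (T' b) → ℕ) (K : Fin r₁ → ℝ) (hK : ∀ a, 0 < K a)
    (hX : ∀ a b t, (X a b t : ℝ) ≤ K a) (L : ℝ)
    (hE : ∀ a, ∑ b, (∑ t, (X a b t : ℝ)) / T' b ≤ (T a : ℝ) / 3)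
    (hz : ∀ a, L ≤ (T a : ℝ) / K a)
    (hL : (r₁ : ℝ) < (2 : ℝ) ^ (L / 2)) :
    ∃ o : (b : Fin r₂) → Fin (T' b), ∀ a, ∑ b, X a b (o b) < T a := by
  classical
  have hT'pos : ∀ b, (0 : ℝ) < T' b := fun b => by exact_mod_cast hT' b
  have : ∀ b, Nonempty (Fin (T' b)) := fun b => ⟨⟨0, hT' b⟩⟩
  set z : Fin r₁ → ℝ := fun a => (T a : ℝ) / K a with hzdef
  have hz0 : ∀ a, 0 ≤ z a := fun a => by
    simp only [hzdef]
    exact div_nonneg (by positivity) (hK a).le
  set W : ((b : Fin r₂) → Fin (T' b)) → ℝ := fun o =>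
    ∑ a, (2 : ℝ) ^ (-z a) * ∏ b, (1 + (X a b (o b) : ℝ) / K a) with hW
  set P : ℝ := ∏ b, (T' b : ℝ) with hP
  have hPpos : 0 < P := Finset.prod_pos (fun b _ => hT'pos b)
  have h2 : ∀ a : Fin r₁, ∏ b : Fin r₂, ∑ t : Fin (T' b), (1 + (X a b t : ℝ) / K a)
      ≤ P * Real.exp (z a / 3) := by
    intro a
    have h3 : ∀ b : Fin r₂, ∑ t : Fin (T' b), (1 + (X a b t : ℝ) / K a)
        ≤ T' b * Real.exp ((∑ t : Fin (T' b), (X a b t : ℝ)) / T' b / K a) := by
      intro b
      have hb := hT'pos b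
      have hKa := hK a
      have e1 : ∑ t : Fin (T' b), (1 + (X a b t : ℝ) / K a)
          = T' b * (1 + (∑ t : Fin (T' b), (X a b t : ℝ)) / T' b / K a) := by
        rw [Finset.sum_add_distrib, ← Finset.sum_div]
        simp
        field_simp
      rw [e1]
      apply mul_le_mul_of_nonneg_left _ hb.le
      have := Real.add_one_le_exp ((∑ t : Fin (T' b), (X a b t : ℝ)) / T' b / K a)
      linarith
    calc ∏ b : Fin r₂, ∑ t : Fin (T' b), (1 + (X a b t : ℝ) / K a)
        ≤ ∏ b : Fin r₂, (T' b * Real.exp ((∑ t : Fin (T' b), (X a b t : ℝ)) / T' b / K a)) := by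
          apply Finset.prod_le_prod
          · intro b _
            apply Finset.sum_nonneg
            intro t _
            have hKa := hK a
            positivity
          · intro b _
            exact h3 b
      _ = P * Real.exp (∑ b : Fin r₂, (∑ t : Fin (T' b), (X a b t : ℝ)) / T' b / K a) := by
          rw [Finset.prod_mul_distrib, Real.exp_sum]
      _ ≤ P * Real.exp (z a / 3) := by
          apply mul_le_mul_of_nonneg_left _ hPpos.le
          apply Real.exp_le_exp.mpr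
          rw [← Finset.sum_div]
          have hKa := hK a
          simp only [hzdef]
          rw [div_div, mul_comm (K a) 3, ← div_div]
          exact div_le_div_of_nonneg_right (hE a) hKa.le
  have htot : ∑ o : ((b : Fin r₂) → Fin (T' b)), W o < ∑ _o : ((b : Fin r₂) → Fin (T' b)), (1 : ℝ) := by
    have h1 : ∑ o : ((b : Fin r₂) → Fin (T' b)), W o
        = ∑ a : Fin r₁, (2 : ℝ) ^ (-z a) *
          ∏ b : Fin r₂, ∑ t : Fin (T' b), (1 + (X a b t : ℝ) / K a) := by
      simp only [hW]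
      rw [Finset.sum_comm]
      refine Finset.sum_congr rfl (fun a _ => ?_)
      rw [← Finset.mul_sum, Finset.prod_univ_sum]
      simp
    have hcard : ∑ _o : ((b : Fin r₂) → Fin (T' b)), (1 : ℝ) = P := by
      simp [hP]
    rw [h1, hcard]
    have hL0 : 0 < (2 : ℝ) ^ (L / 2) := by positivity
    calc ∑ a : Fin r₁, (2 : ℝ) ^ (-z a) *
          ∏ b : Fin r₂, ∑ t : Fin (T' b), (1 + (X a b t : ℝ) / K a)
        ≤ ∑ _a : Fin r₁, P * ((2 : ℝ) ^ (L / 2))⁻¹ := by
          refine Finset.sum_le_sum (fun a _ => ?_)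
          have h5 : (2 : ℝ) ^ (-z a) * (2 : ℝ) ^ (z a / 2) ≤ ((2 : ℝ) ^ (L / 2))⁻¹ := by
            rw [← Real.rpow_add (by norm_num), ← Real.rpow_neg (by norm_num)]
            apply Real.rpow_le_rpow_of_exponent_le (by norm_num)
            have := hz a
            simp only [hzdef]
            linarith
          calc (2 : ℝ) ^ (-z a) * ∏ b : Fin r₂, ∑ t : Fin (T' b), (1 + (X a b t : ℝ) / K a)
              ≤ (2 : ℝ) ^ (-z a) * (P * Real.exp (z a / 3)) :=
                mul_le_mul_of_nonneg_left (h2 a) (by positivity)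
            _ ≤ (2 : ℝ) ^ (-z a) * (P * (2 : ℝ) ^ (z a / 2)) := by
                apply mul_le_mul_of_nonneg_left _ (by positivity)
                exact mul_le_mul_of_nonneg_left (exp_div_three_le (hz0 a)) hPpos.le
            _ = P * ((2 : ℝ) ^ (-z a) * (2 : ℝ) ^ (z a / 2)) := by ring
            _ ≤ P * ((2 : ℝ) ^ (L / 2))⁻¹ := mul_le_mul_of_nonneg_left h5 hPpos.le
      _ = P * (r₁ / (2 : ℝ) ^ (L / 2)) := by
          simp
          ring
      _ < P * 1 := by
          apply mul_lt_mul_of_pos_left _ hPpos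
          rw [div_lt_one hL0]
          exact hL
      _ = P := by ring
  obtain ⟨o, -, ho⟩ := Finset.exists_lt_of_sum_lt htot
  refine ⟨o, fun a => ?_⟩
  by_contra hcon
  push Not at hcon
  have hKa := hK a
  have h1 : (2 : ℝ) ^ (-z a) * ∏ b, (1 + (X a b (o b) : ℝ) / K a) ≤ W o := by
    simp only [hW]
    refine Finset.single_le_sum
      (f := fun a => (2 : ℝ) ^ (-z a) * ∏ b, (1 + (X a b (o b) : ℝ) / K a)) ?_ (Finset.mem_univ a)
    intro a' _
    have hKa' := hK a'
    apply mul_nonneg (by positivity)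
    apply Finset.prod_nonneg
    intro b _
    positivity
  have h3 : (2 : ℝ) ^ (z a) ≤ ∏ b, (1 + (X a b (o b) : ℝ) / K a) := by
    calc (2 : ℝ) ^ (z a) ≤ (2 : ℝ) ^ (∑ b, (X a b (o b) : ℝ) / K a) := by
          apply Real.rpow_le_rpow_of_exponent_le (by norm_num)
          rw [← Finset.sum_div]
          simp only [hzdef]
          apply div_le_div_of_nonneg_right _ hKa.le
          exact_mod_cast hcon
      _ = ∏ b, (2 : ℝ) ^ ((X a b (o b) : ℝ) / K a) := by
          rw [Real.rpow_sum_of_pos (by norm_num)]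
      _ ≤ ∏ b, (1 + (X a b (o b) : ℝ) / K a) := by
          apply Finset.prod_le_prod
          · intro b _
            positivity
          · intro b _
            apply two_rpow_le (by positivity)
            rw [div_le_one hKa]
            exact hX a b (o b)
  have h4 : 1 ≤ (2 : ℝ) ^ (-z a) * ∏ b, (1 + (X a b (o b) : ℝ) / K a) := by
    calc (1 : ℝ) = (2 : ℝ) ^ (-z a) * (2 : ℝ) ^ (z a) := by
          rw [← Real.rpow_add (by norm_num)]; simp
      _ ≤ _ := mul_le_mul_of_nonneg_left h3 (by positivity)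
  linarith

end Pool.Agent.Lib.MP_c11385_co
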