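import Mathlib
import Pool.Agent.Lib.MP_c11385_co.CoreGen

set_option autoImplicit false

namespace Pool.Agent.Lib.MP_c11385_co

open Finset

/-- Placement lemma with block-dependent region sizes. Row block `a` starts at `A a`, its points
are displaced by less than `U a`, and its offset is less than `T a`. Column block `b` starts at
`B b`, its points are displaced by less than `V`, and its offset is less than `T' b`. -/
theorem placement_gen {ι : Type} [Fintype ι] (r₁ r₂ D V N : ℕ)
    (T U A : Fin r₁ → ℕ) (T' B : Fin r₂ → ℕ)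
    (q : ι → Fin r₁) (s : ι → Fin r₂) (u v : ι → ℕ)
    (hu : ∀ i, u i < U (q i)) (hv : ∀ i, v i < V)
    (β : ℕ → ℕ → Prop) (hβ : ∀ x y, β x y → x < N ∧ y < N)
    (hrow : ∀ x, Set.ncard {y | β x y} ≤ D)
    (hcol : ∀ y, Set.ncard {x | β x y} ≤ D)
    (μ : Fin r₁ → ℕ) (ν : Fin r₂ → ℕ)
    (hμ : ∀ a b, Set.ncard {i | q i = a ∧ s i = b} ≤ μ a)
    (hν : ∀ a b, Set.ncard {i | q i = a ∧ s i = b} ≤ ν b)
    (hμ0 : ∀ a, 0 < μ a) (hν0 : ∀ b, 0 < ν b) (hD0 : 0 < D)
    (hdisj : ∀ b b' : Fin r₂, b < b' → B b + (T' b + V) ≤ B b')
    (L : ℕ) (hL9 : 9 ≤ L) (hL : (r₁ : ℝ) < (2 : ℝ) ^ ((L : ℝ) / 2))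
    (hT : ∀ a, μ a * D * L ≤ T a) (hT' : ∀ b, T' b = ν b * D * L)
    (hU : ∀ a, U a ≤ 2 * T a) :
    ∃ (o : Fin r₁ → ℕ) (o' : Fin r₂ → ℕ), (∀ a, o a < T a) ∧ (∀ b, o' b < T' b) ∧
      ∀ i, ¬ β (A (q i) + o (q i) + u i) (B (s i) + o' (s i) + v i) := by
  classical
  have hrowfin : ∀ x, Set.Finite {y | β x y} := fun x =>
    (Set.finite_lt_nat N).subset (fun y hy => (hβ x y hy).2)
  have hcolfin : ∀ y, Set.Finite {x | β x y} := fun y =>
    (Set.finite_lt_nat N).subset (fun x hx => (hβ x y hx).1)
  have hT'0 : ∀ b, 0 < T' b := fun b => by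
    rw [hT']
    exact Nat.mul_pos (Nat.mul_pos (hν0 b) hD0) (by omega)
  have hT0 : ∀ a, 0 < T a := fun a =>
    lt_of_lt_of_le (Nat.mul_pos (Nat.mul_pos (hμ0 a) hD0) (by omega)) (hT a)
  set Z : Fin r₁ → Fin r₂ → ℕ → ι → ℕ := fun a b t i =>
    (univ.filter (fun o : Fin (T a) =>
      β (A a + o.val + u i) (B b + t + v i))).card with hZ
  have hZD : ∀ a b t i, Z a b t i ≤ D := by
    intro a b t i
    refine le_trans ?_ (hcol (B b + t + v i))
    simp only [hZ]
    rw [← Set.ncard_coe_finset]
    refine Set.ncard_le_ncard_of_injOn (fun o : Fin (T a) => A a + o.val + u i) ?_ ?_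
      (hcolfin _)
    · intro o ho
      simpa using ho
    · intro o _ o' _ hoo
      simp only at hoo
      exact Fin.ext (by omega)
  set X : Fin r₁ → (b : Fin r₂) → Fin (T' b) → ℕ := fun a b t =>
    ∑ i ∈ univ.filter (fun i => q i = a ∧ s i = b), Z a b t.val i with hX
  have hcardeq : ∀ a b, (univ.filter (fun i => q i = a ∧ s i = b)).card
      = Set.ncard {i | q i = a ∧ s i = b} := by
    intro a b
    rw [Set.ncard_eq_toFinset_card']
    congr 1
    ext i
    simp
  have hXK : ∀ a b t, (X a b t : ℝ) ≤ (μ a : ℝ) * D := by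
    intro a b t
    have : X a b t ≤ μ a * D := by
      calc X a b t ≤ ∑ i ∈ univ.filter (fun i => q i = a ∧ s i = b), D :=
            Finset.sum_le_sum (fun i _ => hZD a b t i)
        _ = (univ.filter (fun i => q i = a ∧ s i = b)).card * D := by simp
        _ ≤ μ a * D := by
            rw [hcardeq]
            exact Nat.mul_le_mul_right _ (hμ a b)
    exact_mod_cast this
  set E : Fin r₁ → Fin r₂ → ℕ := fun a b =>
    ((range (T a + U a) ×ˢ range (T' b + V)).filter (fun p : ℕ × ℕ =>
      β (A a + p.1) (B b + p.2))).card with hE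
  have hZE : ∀ a b i, q i = a → ∑ t : Fin (T' b), Z a b t.val i ≤ E a b := by
    intro a b i hqi
    have h1 : ∑ t : Fin (T' b), Z a b t.val i
        = ((univ : Finset (Fin (T' b) × Fin (T a))).filter
        (fun p => β (A a + p.2.val + u i) (B b + p.1.val + v i))).card := by
      simp only [hZ]
      rw [Finset.card_filter, ← Finset.univ_product_univ, Finset.sum_product]
      refine Finset.sum_congr rfl (fun t _ => ?_)
      rw [Finset.card_filter]
    rw [h1]
    refine Finset.card_le_card_of_injOn
      (fun p : Fin (T' b) × Fin (T a) => (p.2.val + u i, p.1.val + v i)) ?_ ?_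
    · intro p hp
      have hp' : β (A a + p.2.val + u i) (B b + p.1.val + v i) := by
        simpa using hp
      have h2 := hu i
      rw [hqi] at h2
      have h3 := hv i
      have h4 := p.1.isLt
      have h5 := p.2.isLt
      simp only [Finset.coe_filter, Set.mem_ofPred_eq, Finset.mem_product, Finset.mem_range]
      refine ⟨⟨by omega, by omega⟩, ?_⟩
      rw [← Nat.add_assoc, ← Nat.add_assoc]
      exact hp'
    · intro p _ p' _ hpp
      simp only [Prod.mk.injEq] at hpp
      ext
      · omega
      · omega
  have hErow : ∀ a, ∑ b, E a b ≤ (T a + U a) * D := by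
    intro a
    have h1 : ∀ b, E a b = ∑ x ∈ range (T a + U a), ((range (T' b + V)).filter (fun y =>
        β (A a + x) (B b + y))).card := by
      intro b
      simp only [hE]
      rw [Finset.card_filter, Finset.sum_product]
      refine Finset.sum_congr rfl (fun t _ => ?_)
      rw [Finset.card_filter]
    simp only [h1]
    rw [Finset.sum_comm]
    calc ∑ x ∈ range (T a + U a), ∑ b : Fin r₂, ((range (T' b + V)).filter (fun y =>
            β (A a + x) (B b + y))).card
        ≤ ∑ x ∈ range (T a + U a), D := by
          refine Finset.sum_le_sum (fun x _ => ?_)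
          refine le_trans ?_ (hrow (A a + x))
          have h2 : ∑ b : Fin r₂, ((range (T' b + V)).filter (fun y =>
            β (A a + x) (B b + y))).card
            = (((univ : Finset (Fin r₂)).sigma (fun b => (range (T' b + V)).filter (fun y =>
              β (A a + x) (B b + y))))).card := by
            rw [Finset.card_sigma]
          rw [h2, ← Set.ncard_coe_finset]
          refine Set.ncard_le_ncard_of_injOn
            (fun p : (Σ _ : Fin r₂, ℕ) => B p.1 + p.2) ?_ ?_ (hrowfin _)
          · intro p hp
            simp only [Finset.coe_sigma, Set.mem_sigma_iff, Finset.mem_coe, Finset.mem_filter] at hp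
            exact hp.2.2
          · rintro ⟨b, y⟩ hp ⟨b', y'⟩ hp' hpp
            simp only [Finset.coe_sigma, Set.mem_sigma_iff, Finset.mem_coe, Finset.mem_filter,
              Finset.mem_range] at hp hp'
            simp only at hpp
            have hp2 := hp.2.1
            have hp2' := hp'.2.1
            have hbb : b = b' := by
              rcases lt_trichotomy b b' with h | h | h
              · have := hdisj _ _ h
                omega
              · exact h
              · have := hdisj _ _ h
                omega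
            subst hbb
            have : y = y' := by omega
            rw [this]
      _ = (T a + U a) * D := by simp
  have hLpos : (0 : ℝ) < L := by
    have : 0 < L := by omega
    exact_mod_cast this
  have hDpos : (0 : ℝ) < D := by exact_mod_cast hD0
  have hXsum : ∀ a, (∑ b, (∑ t, (X a b t : ℝ)) / T' b) ≤ (T a : ℝ) / 3 := by
    intro a
    have h1 : ∀ b, (∑ t, (X a b t : ℝ)) / T' b ≤ (E a b : ℝ) / (D * L) := by
      intro b
      have h2 : ∑ t, X a b t ≤ ν b * E a b := by
        simp only [hX]
        rw [Finset.sum_comm]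
        calc ∑ i ∈ univ.filter (fun i => q i = a ∧ s i = b), ∑ t : Fin (T' b), Z a b t.val i
            ≤ ∑ i ∈ univ.filter (fun i => q i = a ∧ s i = b), E a b :=
              Finset.sum_le_sum (fun i hi => hZE a b i (Finset.mem_filter.mp hi).2.1)
          _ = (univ.filter (fun i => q i = a ∧ s i = b)).card * E a b := by simp
          _ ≤ ν b * E a b := by
              rw [hcardeq]
              exact Nat.mul_le_mul_right _ (hν a b)
      have h3 : (∑ t, (X a b t : ℝ)) ≤ (ν b : ℝ) * E a b := by exact_mod_cast h2
      have hνpos : (0 : ℝ) < ν b := by exact_mod_cast hν0 b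
      have h4 : (T' b : ℝ) = (ν b : ℝ) * D * L := by
        rw [hT']
        push_cast
        ring
      rw [h4, div_le_div_iff₀ (by positivity) (by positivity)]
      calc (∑ t, (X a b t : ℝ)) * (D * L) ≤ ((ν b : ℝ) * E a b) * (D * L) :=
            mul_le_mul_of_nonneg_right h3 (by positivity)
        _ = (E a b : ℝ) * ((ν b : ℝ) * D * L) := by ring
    calc (∑ b, (∑ t, (X a b t : ℝ)) / T' b) ≤ ∑ b, (E a b : ℝ) / (D * L) :=
          Finset.sum_le_sum (fun b _ => h1 b)
      _ = ((∑ b, E a b : ℕ) : ℝ) / (D * L) := by
          rw [← Finset.sum_div]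
          push_cast
          rfl
      _ ≤ (((T a + U a) * D : ℕ) : ℝ) / (D * L) := by
          apply div_le_div_of_nonneg_right _ (by positivity)
          exact_mod_cast hErow a
      _ = ((T a : ℝ) + U a) / L := by
          push_cast
          field_simp
      _ ≤ (T a : ℝ) / 3 := by
          rw [div_le_div_iff₀ hLpos (by norm_num)]
          have h5 : (U a : ℝ) ≤ 2 * T a := by exact_mod_cast hU a
          have h6 : (9 : ℝ) ≤ L := by exact_mod_cast hL9
          have h7 : (0 : ℝ) ≤ T a := by positivity
          nlinarith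
  obtain ⟨o', ho'⟩ := exists_offsets_gen T T' hT'0 X (fun a => (μ a : ℝ) * D)
    (fun a => by
      have : (0 : ℝ) < μ a := by exact_mod_cast hμ0 a
      positivity) hXK L hXsum
    (fun a => by
      have h1 : (0 : ℝ) < μ a := by exact_mod_cast hμ0 a
      rw [le_div_iff₀ (by positivity)]
      have h2 : ((μ a * D * L : ℕ) : ℝ) ≤ T a := by exact_mod_cast hT a
      push_cast at h2
      linarith) hL
  have hgood : ∀ a : Fin r₁, ∃ o : Fin (T a), ∀ i, q i = a →
      ¬ β (A a + o.val + u i) (B (s i) + (o' (s i)).val + v i) := by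
    intro a
    by_contra hcon
    push Not at hcon
    have h1 : (univ : Finset (Fin (T a))) ⊆ (univ : Finset (Fin r₂)).biUnion (fun b =>
        (univ.filter (fun i => q i = a ∧ s i = b)).biUnion (fun i =>
          univ.filter (fun o : Fin (T a) =>
            β (A a + o.val + u i) (B b + (o' b).val + v i)))) := by
      intro o _
      obtain ⟨i, hi, hβi⟩ := hcon o
      simp only [Finset.mem_biUnion, Finset.mem_filter, Finset.mem_univ, true_and]
      exact ⟨s i, i, ⟨hi, rfl⟩, hβi⟩
    have h2 := Finset.card_le_card h1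
    have h3 : ((univ : Finset (Fin r₂)).biUnion (fun b =>
        (univ.filter (fun i => q i = a ∧ s i = b)).biUnion (fun i =>
          univ.filter (fun o : Fin (T a) =>
            β (A a + o.val + u i) (B b + (o' b).val + v i))))).card
        ≤ ∑ b, X a b (o' b) := by
      refine le_trans Finset.card_biUnion_le ?_
      refine Finset.sum_le_sum (fun b _ => ?_)
      exact Finset.card_biUnion_le
    have h4 := ho' a
    simp only [Finset.card_univ, Fintype.card_fin] at h2
    omega
  choose o ho using hgood
  refine ⟨fun a => (o a).val, fun b => (o' b).val, fun a => (o a).isLt, fun b => (o' b).isLt, ?_⟩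
  intro i
  exact ho (q i) i rfl

end Pool.Agent.Lib.MP_c11385_co
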