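import Mathlib
import Pool.Agent.Lib.MP_c11385_co.PlacementGen
import Pool.Agent.Lib.MP_c11385_co.Main

set_option autoImplicit false

namespace Pool.Agent.Lib.MP_c11385_co

open Finset

/-- partial sums of region sizes -/
def start {r : ℕ} (S : Fin r → ℕ) (a : Fin r) : ℕ := ∑ a' ∈ univ.filter (fun a' => a' < a), S a'

theorem start_add_le {r : ℕ} (S : Fin r → ℕ) {a b : Fin r} (h : a < b) :
    start S a + S a ≤ start S b := by
  classical
  unfold start
  have h1 : insert a (univ.filter (fun a' => a' < a)) ⊆ univ.filter (fun a' => a' < b) := by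
    intro x hx
    simp only [Finset.mem_insert, Finset.mem_filter, Finset.mem_univ, true_and] at hx ⊢
    rcases hx with rfl | hx
    · exact h
    · exact lt_trans hx h
  have h2 := Finset.sum_le_sum_of_subset (f := S) h1
  rw [Finset.sum_insert (by simp)] at h2
  omega

theorem start_add_le_total {r : ℕ} (S : Fin r → ℕ) (a : Fin r) :
    start S a + S a ≤ ∑ b, S b := by
  classical
  unfold start
  have h1 : insert a (univ.filter (fun a' => a' < a)) ⊆ univ := Finset.subset_univ _
  have h2 := Finset.sum_le_sum_of_subset (f := S) h1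
  rw [Finset.sum_insert (by simp)] at h2
  omega

open scoped Classical in
/-- The general partition bound. -/
theorem partition_bound (n k r r' : ℕ) (hr : r ≤ n)
    (M : SimpleGraph (Fin n))
    (hM1 : ∀ v : Fin n, ∃! w : Fin n, M.Adj v w)
    (hM2 : ∀ i j : Fin n, M.Adj i j → (i.val < k ↔ k ≤ j.val))
    (q : Fin n → Fin r) (s : Fin n → Fin r') (hq : Monotone q) (hs : Monotone s)
    (X : Set (Fin n × Fin n)) (μ : Fin r → ℕ) (ν : Fin r' → ℕ)
    (hμ0 : ∀ a, 1 ≤ μ a) (hν0 : ∀ b, 1 ≤ ν b)
    (hμ : ∀ a b, Set.ncard {e | e ∈ crossEdges M k ∧ e ∉ X ∧ q e.1 = a ∧ s e.2 = b} ≤ μ a)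
    (hν : ∀ a b, Set.ncard {e | e ∈ crossEdges M k ∧ e ∉ X ∧ q e.1 = a ∧ s e.2 = b} ≤ ν b)
    (N : ℕ)
    (hN : 11 * (n : ℝ) * ((1 + Real.log n) * ((∑ a, (μ a : ℝ)) + ∑ b, (ν b : ℝ)) + X.ncard) ≤ N)
    (R : SimpleGraph (Fin N)) :
    (∃ f : Fin n → Fin N, StrictMono f ∧ ∀ i j : Fin n, M.Adj i j → R.Adj (f i) (f j)) ∨
    (∃ a b c : Fin N, a < b ∧ b < c ∧ ¬ R.Adj a b ∧ ¬ R.Adj b c ∧ ¬ R.Adj a c) := by
  by_contra hcon
  push Not at hcon
  obtain ⟨hno, htri⟩ := hcon
  have htri' : ¬ ∃ a b c : Fin N, a < b ∧ b < c ∧ ¬ R.Adj a b ∧ ¬ R.Adj b c ∧ ¬ R.Adj a c := by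
    rintro ⟨a, b, c, h1, h2, h3, h4, h5⟩
    exact h5 (htri a b c h1 h2 h3 h4)
  have hno' : ¬ ∃ f : Fin n → Fin N, StrictMono f ∧
      ∀ i j : Fin n, M.Adj i j → R.Adj (f i) (f j) := by
    rintro ⟨f, h1, h2⟩
    obtain ⟨i, j, h3, h4⟩ := hno f h1
    exact h4 (h2 i j h3)
  -- `n` is positive
  have hn : 1 ≤ n := by
    by_contra hn0
    have hn0' : n = 0 := by omega
    subst hn0'
    exact hno' ⟨fun i => i.elim0, fun i => i.elim0, fun i => i.elim0⟩
  have hdeg := fun x => blue_degree_le M htri' hno' x
  have hdeg' : ∀ y, Set.ncard {x | Blue R x y} ≤ n := by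
    intro y
    have : {x | Blue R x y} = {x | Blue R y x} := by
      ext x
      exact ⟨fun h => h.symm, fun h => h.symm⟩
    rw [this]
    exact hdeg y
  have hcolfin : ∀ y, Set.Finite {x | Blue R x y} := fun y =>
    (Set.finite_lt_nat N).subset (fun x hx => hx.1)
  -- discarded left endpoints
  set E : Finset (Fin n) := univ.filter (fun v => ∃ w, (v, w) ∈ X ∧ (v, w) ∈ crossEdges M k) with hE
  have hEcard : E.card ≤ X.ncard := by
    have h1 : E ⊆ X.toFinset.image (fun e => e.1) := by
      intro v hv
      simp only [hE, Finset.mem_filter, Finset.mem_univ, true_and] at hv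
      obtain ⟨w, hw, -⟩ := hv
      simp only [Finset.mem_image, Set.mem_toFinset]
      exact ⟨(v, w), hw, rfl⟩
    calc E.card ≤ (X.toFinset.image (fun e => e.1)).card := Finset.card_le_card h1
      _ ≤ X.toFinset.card := Finset.card_image_le
      _ = X.ncard := by rw [Set.ncard_eq_toFinset_card']
  set x : Fin r → ℕ := fun a => (E.filter (fun v => q v = a)).card with hx
  have hxsum : ∑ a, x a = E.card := by
    simp only [hx]
    rw [← Finset.card_eq_sum_card_fiberwise (f := q) (s := E) (t := univ)]
    intro a _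
    simp
  set disc : Fin n → ℕ := fun v => (E.filter (fun w => q w = q v ∧ w < v)).card with hdisc
  have hdisc_le : ∀ v, disc v ≤ x (q v) := by
    intro v
    apply Finset.card_le_card
    intro w hw
    simp only [Finset.mem_filter] at hw ⊢
    exact ⟨hw.1, hw.2.1⟩
  have hdisc_lt : ∀ v ∈ E, disc v < x (q v) := by
    intro v hv
    apply Finset.card_lt_card
    rw [Finset.ssubset_iff_of_subset]
    · exact ⟨v, by simp [hv], by simp⟩
    · intro w hw
      simp only [Finset.mem_filter] at hw ⊢
      exact ⟨hw.1, hw.2.1⟩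
  have hdisc_mono : ∀ v w, v < w → q v = q w → disc v ≤ disc w := by
    intro v w hvw hqq
    apply Finset.card_le_card
    intro y hy
    simp only [Finset.mem_filter] at hy ⊢
    exact ⟨hy.1, by rw [hy.2.1, hqq], lt_trans hy.2.2 hvw⟩
  have hdisc_smono : ∀ v w, v ∈ E → v < w → q v = q w → disc v < disc w := by
    intro v w hv hvw hqq
    apply Finset.card_lt_card
    rw [Finset.ssubset_iff_of_subset]
    · exact ⟨v, by simp [hv, hqq, hvw], by simp⟩
    · intro y hy
      simp only [Finset.mem_filter] at hy ⊢
      exact ⟨hy.1, by rw [hy.2.1, hqq], lt_trans hy.2.2 hvw⟩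
  set L : ℕ := 2 * Nat.log 2 r + 10 with hL
  set T : Fin r → ℕ := fun a => μ a * n * L + (n + 1) * x a with hT
  set U : Fin r → ℕ := fun a => n + (n + 1) * x a with hU
  set T' : Fin r' → ℕ := fun b => ν b * n * L with hT'
  set S : Fin r → ℕ := fun a => T a + U a with hS
  set S' : Fin r' → ℕ := fun b => T' b + n with hS'
  set base : ℕ := ∑ a, S a with hbase
  set A : Fin r → ℕ := start S with hA
  set B : Fin r' → ℕ := fun b => base + start S' b with hB
  have hnL : ∀ c : ℕ, 1 ≤ c → n ≤ c * n * L := by
    intro c hc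
    calc n = 1 * n * 1 := by ring
      _ ≤ c * n * L := by
        apply Nat.mul_le_mul (Nat.mul_le_mul_right _ hc) (by omega)
  set ι := {e : Fin n × Fin n // e ∈ crossEdges M k ∧ e ∉ X} with hι
  have hLr : (r : ℝ) < (2 : ℝ) ^ ((L : ℝ) / 2) := by
    have h1 : (L : ℝ) / 2 = ((Nat.log 2 r + 5 : ℕ) : ℝ) := by
      rw [hL]
      push_cast
      ring
    rw [h1, Real.rpow_natCast]
    have h2 : r < 2 ^ (Nat.log 2 r + 1) := Nat.lt_pow_succ_log_self (by norm_num) r
    have h3 : r < 2 ^ (Nat.log 2 r + 5) :=
      lt_of_lt_of_le h2 (Nat.pow_le_pow_right (by norm_num) (by omega))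
    exact_mod_cast h3
  have hncard : ∀ a b, Set.ncard {i : ι | q i.val.1 = a ∧ s i.val.2 = b} ≤
      Set.ncard {e | e ∈ crossEdges M k ∧ e ∉ X ∧ q e.1 = a ∧ s e.2 = b} := by
    intro a b
    refine Set.ncard_le_ncard_of_injOn (fun i : ι => i.val) ?_ ?_ (Set.toFinite _)
    · rintro i ⟨hia, hib⟩
      exact ⟨i.property.1, i.property.2, hia, hib⟩
    · intro i _ j _ hij
      exact Subtype.ext hij
  obtain ⟨o, o', ho, ho', hgood⟩ := placement_gen (ι := ι) r r' n n N T U A T' B
    (fun e => q e.val.1) (fun e => s e.val.2)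
    (fun e => e.val.1.val + (n + 1) * disc e.val.1) (fun e => e.val.2.val)
    (fun e => by
      have h1 := hdisc_le e.val.1
      have h2 := e.val.1.isLt
      have h3 : (n + 1) * disc e.val.1 ≤ (n + 1) * x (q e.val.1) := Nat.mul_le_mul_left _ h1
      simp only [hU]
      omega)
    (fun e => e.val.2.isLt)
    (Blue R) (fun x y h => ⟨h.1, h.2.1⟩) hdeg hdeg' μ ν
    (fun a b => le_trans (hncard a b) (hμ a b)) (fun a b => le_trans (hncard a b) (hν a b))
    hμ0 hν0 hn
    (fun b b' hbb => by
      have := start_add_le S' hbb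
      simp only [hB]
      simp only [hS'] at this ⊢
      omega)
    L (by omega) hLr
    (fun a => by simp only [hT]; omega) (fun b => rfl)
    (fun a => by
      have := hnL (μ a) (hμ0 a)
      simp only [hT, hU]
      omega)
  -- right positions
  set posR : Fin n → ℕ := fun w => B (s w) + o' (s w) + w.val with hposR
  set p0 : Fin n → ℕ := fun v => A (q v) + o (q v) + (v.val + (n + 1) * disc v) with hp0
  -- offsets for the discarded edges
  have hoff : ∀ v : Fin n, ∃ c : ℕ, c ≤ n ∧ (v ∉ E → c = 0) ∧
      ∀ w, (v, w) ∈ X → (v, w) ∈ crossEdges M k → ¬ Blue R (p0 v + c) (posR w) := by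
    intro v
    by_cases hv : v ∈ E
    swap
    · refine ⟨0, by omega, fun _ => rfl, ?_⟩
      intro w hw hw'
      exfalso
      apply hv
      simp only [hE, Finset.mem_filter, Finset.mem_univ, true_and]
      exact ⟨w, hw, hw'⟩
    · have hv' := hv
      simp only [hE, Finset.mem_filter, Finset.mem_univ, true_and] at hv'
      obtain ⟨w0, hw0, hw0'⟩ := hv'
      by_contra hc
      push Not at hc
      have h1 : ∀ c : Fin (n + 1), Blue R (p0 v + c.val) (posR w0) := by
        intro c
        obtain ⟨w, hw, hw', hblue⟩ := hc c.val (by omega) (fun h => absurd hv h)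
        obtain ⟨z, hz, huz⟩ := hM1 v
        have e1 : w = z := huz _ hw'.1
        have e2 : w0 = z := huz _ hw0'.1
        rw [e2, ← e1]
        exact hblue
      have h2 : (Set.univ : Set (Fin (n + 1))).ncard ≤ Set.ncard {x | Blue R x (posR w0)} := by
        refine Set.ncard_le_ncard_of_injOn (fun c : Fin (n + 1) => p0 v + c.val) ?_ ?_
          (hcolfin _)
        · intro c _
          exact h1 c
        · intro c _ c' _ hcc
          simp only at hcc
          exact Fin.ext (by omega)
      rw [Set.ncard_univ, Nat.card_eq_fintype_card, Fintype.card_fin] at h2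
      have h3 := hdeg' (posR w0)
      omega
  choose c hcn hc0 hcgood using hoff
  set pos : Fin n → ℕ := fun v => if v.val < k then p0 v + c v else posR v with hpos
  have hposL : ∀ v : Fin n, v.val < k → pos v = p0 v + c v := by
    intro v hv
    simp only [hpos, if_pos hv]
  have hposR' : ∀ v : Fin n, ¬ v.val < k → pos v = posR v := by
    intro v hv
    simp only [hpos, if_neg hv]
  -- end of left regions
  have hend : ∀ v : Fin n, p0 v + c v < A (q v) + S (q v) := by
    intro v
    have h1 := ho (q v)
    have h2 := v.isLt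
    simp only [hp0, hS, hU]
    by_cases hv : v ∈ E
    · have h3 := hdisc_lt v hv
      have h4 := hcn v
      have h5 : (n + 1) * (disc v + 1) ≤ (n + 1) * x (q v) := Nat.mul_le_mul_left _ h3
      have h6 : (n + 1) * (disc v + 1) = (n + 1) * disc v + (n + 1) := by ring
      omega
    · have h3 := hdisc_le v
      have h4 := hc0 v hv
      have h5 : (n + 1) * disc v ≤ (n + 1) * x (q v) := Nat.mul_le_mul_left _ h3
      omega
  have htotal : base + ∑ b, S' b ≤ N := by
    have h1 : base + ∑ b, S' b ≤ n * (L + 1) * (∑ a, μ a + ∑ b, ν b) + 4 * n * X.ncard := by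
      have e1 : base = n * L * ∑ a, μ a + 2 * (n + 1) * E.card + n * r := by
        rw [hbase]
        simp only [hS, hT, hU]
        rw [← hxsum]
        have : ∀ a, μ a * n * L + (n + 1) * x a + (n + (n + 1) * x a)
            = n * L * μ a + 2 * (n + 1) * x a + n := fun a => by ring
        simp only [this]
        rw [Finset.sum_add_distrib, Finset.sum_add_distrib, ← Finset.mul_sum, ← Finset.mul_sum]
        simp [mul_comm]
      have e2 : ∑ b, S' b = n * L * ∑ b, ν b + n * r' := by
        simp only [hS', hT']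
        have : ∀ b, ν b * n * L + n = n * L * ν b + n := fun b => by ring
        simp only [this]
        rw [Finset.sum_add_distrib, ← Finset.mul_sum]
        simp [mul_comm]
      have e3 : r ≤ ∑ a, μ a := by
        calc r = ∑ _a : Fin r, 1 := by simp
          _ ≤ _ := Finset.sum_le_sum (fun a _ => hμ0 a)
      have e4 : r' ≤ ∑ b, ν b := by
        calc r' = ∑ _b : Fin r', 1 := by simp
          _ ≤ _ := Finset.sum_le_sum (fun b _ => hν0 b)
      rw [e1, e2]
      have e5 : n * r ≤ n * ∑ a, μ a := Nat.mul_le_mul_left _ e3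
      have e6 : n * r' ≤ n * ∑ b, ν b := Nat.mul_le_mul_left _ e4
      have e7 : 2 * (n + 1) * E.card ≤ 4 * n * X.ncard := Nat.mul_le_mul (by omega) hEcard
      have e8 : n * (L + 1) * (∑ a, μ a + ∑ b, ν b) =
          n * L * ∑ a, μ a + n * ∑ a, μ a + n * L * ∑ b, ν b + n * ∑ b, ν b := by ring
      rw [e8]
      omega
    have hnR : (1 : ℝ) ≤ n := by exact_mod_cast hn
    have hlogn : 0 ≤ Real.log n := Real.log_nonneg hnR
    have hr0 : 0 < r := by
      have := (q ⟨0, hn⟩).isLt
      omega
    have hL1 : ((L : ℝ) + 1) ≤ 11 * (1 + Real.log n) := by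
      have h2 : (Nat.log 2 r : ℝ) ≤ Real.logb 2 r := by
        have := Real.natLog_le_logb r 2
        simpa using this
      have hl2 : 0.69 < Real.log 2 := by
        have := Real.log_two_gt_d9
        linarith
      have h3 : Real.logb 2 r ≤ 1.5 * Real.log n := by
        have h4 : Real.logb 2 r = Real.log r / Real.log 2 := rfl
        rw [h4, div_le_iff₀ (by linarith)]
        have h5 : Real.log r ≤ Real.log n := by
          apply Real.log_le_log (by exact_mod_cast hr0)
          exact_mod_cast hr
        nlinarith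
      rw [hL]
      push_cast
      linarith
    have h6 : ((base + ∑ b, S' b : ℕ) : ℝ) ≤ N := by
      refine le_trans ?_ hN
      have h7 : ((base + ∑ b, S' b : ℕ) : ℝ) ≤
          ((n * (L + 1) * (∑ a, μ a + ∑ b, ν b) + 4 * n * X.ncard : ℕ) : ℝ) := by
        exact_mod_cast h1
      refine le_trans h7 ?_
      push_cast
      have h8 : (0 : ℝ) ≤ ∑ a, (μ a : ℝ) + ∑ b, (ν b : ℝ) := by positivity
      have h9 : (n : ℝ) * (L + 1) * (∑ a, (μ a : ℝ) + ∑ b, (ν b : ℝ)) ≤
          (n : ℝ) * (11 * (1 + Real.log n)) * (∑ a, (μ a : ℝ) + ∑ b, (ν b : ℝ)) := by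
        gcongr
      have h10 : (0 : ℝ) ≤ (n : ℝ) * X.ncard := by positivity
      nlinarith
    exact_mod_cast h6
  have hlt : ∀ v : Fin n, pos v < N := by
    intro v
    by_cases hv : v.val < k
    · rw [hposL v hv]
      have h1 := hend v
      have h2 := start_add_le_total S (q v)
      have h3 : A (q v) = start S (q v) := rfl
      omega
    · rw [hposR' v hv]
      have h1 := ho' (s v)
      have h2 := start_add_le_total S' (s v)
      have h3 := v.isLt
      simp only [hposR, hB]
      simp only [hS'] at h2 htotal ⊢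
      omega
  have hmono : ∀ v w : Fin n, v < w → pos v < pos w := by
    intro v w hvw
    have hvw' : v.val < w.val := hvw
    by_cases hw : w.val < k
    · have hv : v.val < k := by omega
      rw [hposL v hv, hposL w hw]
      rcases (hq hvw.le).lt_or_eq with h | h
      · have h1 := hend v
        have h2 := start_add_le S h
        have h3 : A (q v) = start S (q v) := rfl
        have h4 : A (q w) = start S (q w) := rfl
        simp only [hp0] at h1 ⊢
        omega
      · simp only [hp0]
        rw [← h]
        by_cases hvE : v ∈ E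
        · have h3 := hdisc_smono v w hvE hvw h
          have h4 := hcn v
          have h5 : (n + 1) * (disc v + 1) ≤ (n + 1) * disc w := Nat.mul_le_mul_left _ h3
          have h6 : (n + 1) * (disc v + 1) = (n + 1) * disc v + (n + 1) := by ring
          omega
        · have h3 := hdisc_mono v w hvw h
          have h4 := hc0 v hvE
          have h5 : (n + 1) * disc v ≤ (n + 1) * disc w := Nat.mul_le_mul_left _ h3
          omega
    · by_cases hv : v.val < k
      · rw [hposL v hv, hposR' w hw]
        have h1 := hend v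
        have h2 := start_add_le_total S (q v)
        have h3 : A (q v) = start S (q v) := rfl
        simp only [hposR, hB]
        omega
      · rw [hposR' v hv, hposR' w hw]
        rcases (hs hvw.le).lt_or_eq with h | h
        · have h1 := ho' (s v)
          have h2 := start_add_le S' h
          have h3 := v.isLt
          simp only [hposR, hB]
          simp only [hS'] at h2 ⊢
          omega
        · simp only [hposR]
          rw [← h]
          omega
  apply hno'
  refine ⟨fun v => ⟨pos v, hlt v⟩, fun v w hvw => hmono v w hvw, ?_⟩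
  have key : ∀ i j : Fin n, M.Adj i j → i.val < k →
      R.Adj ⟨pos i, hlt i⟩ ⟨pos j, hlt j⟩ := by
    intro i j hij hi
    have hj : k ≤ j.val := (hM2 i j hij).1 hi
    have hne : pos i ≠ pos j := by
      have := hmono i j (by
        show i.val < j.val
        omega)
      omega
    by_contra h2
    have h3 : Blue R (pos i) (pos j) := ⟨hlt i, hlt j, hne, h2⟩
    rw [hposL i hi, hposR' j (by omega)] at h3
    have hcross : (i, j) ∈ crossEdges M k := ⟨hij, hi, hj⟩
    by_cases hX : (i, j) ∈ X
    · exact hcgood i j hX hcross h3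
    · have hiE : i ∉ E := by
        intro hiE
        simp only [hE, Finset.mem_filter, Finset.mem_univ, true_and] at hiE
        obtain ⟨w, hw, hw'⟩ := hiE
        obtain ⟨z, hz, huz⟩ := hM1 i
        have e1 : w = z := huz _ hw'.1
        have e2 : j = z := huz _ hij
        apply hX
        rw [e2, ← e1]
        exact hw
      have h4 := hgood ⟨(i, j), hcross, hX⟩
      rw [hc0 i hiE, Nat.add_zero] at h3
      exact h4 h3
  intro i j hij
  by_cases hi : i.val < k
  · exact key i j hij hi
  · have hj : j.val < k := by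
      have := hM2 i j hij
      by_contra h
      exact hi (this.2 (by omega))
    exact (key j i hij.symm hj).symm

end Pool.Agent.Lib.MP_c11385_co
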